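import Mathlib

set_option autoImplicit false

namespace Pool.Agent.H748Z.Crit

/-- a critical set of size 16 in the cyclic latin square of order 6 -/
def S : Finset (Fin 6 × Fin 6) :=
  {(0, 0), (0, 1), (0, 2), (0, 4), (1, 0), (1, 1), (1, 2), (2, 0), (2, 1), (2, 2), (2, 4), (2, 5), (3, 1), (3, 4), (3, 5), (5, 1)}

lemma card_S : S.card = 16 := by decide

lemma only0 : ∀ x : Fin 6, x ≠ 1 → x ≠ 2 → x ≠ 3 → x ≠ 4 → x ≠ 5 → x = 0 := by decide

lemma only1 : ∀ x : Fin 6, x ≠ 0 → x ≠ 2 → x ≠ 3 → x ≠ 4 → x ≠ 5 → x = 1 := by decide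

lemma only2 : ∀ x : Fin 6, x ≠ 0 → x ≠ 1 → x ≠ 3 → x ≠ 4 → x ≠ 5 → x = 2 := by decide

lemma only3 : ∀ x : Fin 6, x ≠ 0 → x ≠ 1 → x ≠ 2 → x ≠ 4 → x ≠ 5 → x = 3 := by decide

lemma only4 : ∀ x : Fin 6, x ≠ 0 → x ≠ 1 → x ≠ 2 → x ≠ 3 → x ≠ 5 → x = 4 := by decide

lemma only5 : ∀ x : Fin 6, x ≠ 0 → x ≠ 1 → x ≠ 2 → x ≠ 3 → x ≠ 4 → x = 5 := by decide

lemma uniq (M : Fin 6 → Fin 6 → Fin 6) (hr : ∀ i, Function.Injective (M i))
    (hc : ∀ j, Function.Injective (fun i => M i j)) (hS : ∀ c ∈ S, M c.1 c.2 = c.1 + c.2) :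
    M = fun i j => i + j := by
  have R : ∀ {i j k v : Fin 6}, M i k = v → j ≠ k → M i j ≠ v :=
    fun h hne e => hne (hr _ (e.trans h.symm))
  have C : ∀ {i j k v : Fin 6}, M k j = v → i ≠ k → M i j ≠ v :=
    fun h hne e => hne (hc _ (e.trans h.symm))
  have h00 : M 0 0 = 0 := hS (0, 0) (by decide)
  have h01 : M 0 1 = 1 := hS (0, 1) (by decide)
  have h02 : M 0 2 = 2 := hS (0, 2) (by decide)
  have h04 : M 0 4 = 4 := hS (0, 4) (by decide)
  have h10 : M 1 0 = 1 := hS (1, 0) (by decide)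
  have h11 : M 1 1 = 2 := hS (1, 1) (by decide)
  have h12 : M 1 2 = 3 := hS (1, 2) (by decide)
  have h20 : M 2 0 = 2 := hS (2, 0) (by decide)
  have h21 : M 2 1 = 3 := hS (2, 1) (by decide)
  have h22 : M 2 2 = 4 := hS (2, 2) (by decide)
  have h24 : M 2 4 = 0 := hS (2, 4) (by decide)
  have h25 : M 2 5 = 1 := hS (2, 5) (by decide)
  have h31 : M 3 1 = 4 := hS (3, 1) (by decide)
  have h34 : M 3 4 = 1 := hS (3, 4) (by decide)
  have h35 : M 3 5 = 2 := hS (3, 5) (by decide)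
  have h51 : M 5 1 = 0 := hS (5, 1) (by decide)
  have h14 : M 1 4 = 5 := only5 _
    (C h24 (by decide)) (C h34 (by decide)) (R h11 (by decide)) (R h12 (by decide)) (C h04 (by decide))
  have h23 : M 2 3 = 5 := only5 _
    (R h24 (by decide)) (R h25 (by decide)) (R h20 (by decide)) (R h21 (by decide)) (R h22 (by decide))
  have h03 : M 0 3 = 3 := only3 _
    (R h00 (by decide)) (R h01 (by decide)) (R h02 (by decide)) (R h04 (by decide)) (C h23 (by decide))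
  have h05 : M 0 5 = 5 := only5 _
    (R h00 (by decide)) (C h25 (by decide)) (C h35 (by decide)) (R h03 (by decide)) (R h04 (by decide))
  have h33 : M 3 3 = 0 := only0 _
    (R h34 (by decide)) (R h35 (by decide)) (C h03 (by decide)) (R h31 (by decide)) (C h23 (by decide))
  have h13 : M 1 3 = 4 := only4 _
    (C h33 (by decide)) (R h10 (by decide)) (R h11 (by decide)) (R h12 (by decide)) (R h14 (by decide))
  have h15 : M 1 5 = 0 := only0 _
    (C h25 (by decide)) (C h35 (by decide)) (R h12 (by decide)) (R h13 (by decide)) (R h14 (by decide))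
  have h32 : M 3 2 = 5 := only5 _
    (R h33 (by decide)) (R h34 (by decide)) (R h35 (by decide)) (C h12 (by decide)) (C h22 (by decide))
  have h30 : M 3 0 = 3 := only3 _
    (R h33 (by decide)) (R h34 (by decide)) (R h35 (by decide)) (R h31 (by decide)) (R h32 (by decide))
  have h41 : M 4 1 = 5 := only5 _
    (C h51 (by decide)) (C h01 (by decide)) (C h11 (by decide)) (C h21 (by decide)) (C h31 (by decide))
  have h40 : M 4 0 = 4 := only4 _
    (C h00 (by decide)) (C h10 (by decide)) (C h20 (by decide)) (C h30 (by decide)) (R h41 (by decide))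
  have h45 : M 4 5 = 3 := only3 _
    (C h15 (by decide)) (C h25 (by decide)) (C h35 (by decide)) (R h40 (by decide)) (R h41 (by decide))
  have h44 : M 4 4 = 2 := only2 _
    (C h24 (by decide)) (C h34 (by decide)) (R h45 (by decide)) (C h04 (by decide)) (C h14 (by decide))
  have h43 : M 4 3 = 1 := only1 _
    (C h33 (by decide)) (R h44 (by decide)) (R h45 (by decide)) (C h13 (by decide)) (C h23 (by decide))
  have h42 : M 4 2 = 0 := only0 _
    (R h43 (by decide)) (R h44 (by decide)) (R h45 (by decide)) (C h22 (by decide)) (C h32 (by decide))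
  have h50 : M 5 0 = 5 := only5 _
    (R h51 (by decide)) (C h10 (by decide)) (C h20 (by decide)) (C h30 (by decide)) (C h40 (by decide))
  have h52 : M 5 2 = 1 := only1 _
    (C h42 (by decide)) (C h02 (by decide)) (C h12 (by decide)) (C h22 (by decide)) (C h32 (by decide))
  have h53 : M 5 3 = 2 := only2 _
    (C h33 (by decide)) (C h43 (by decide)) (C h03 (by decide)) (C h13 (by decide)) (C h23 (by decide))
  have h54 : M 5 4 = 3 := only3 _
    (C h24 (by decide)) (C h34 (by decide)) (C h44 (by decide)) (C h04 (by decide)) (C h14 (by decide))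
  have h55 : M 5 5 = 4 := only4 _
    (C h15 (by decide)) (C h25 (by decide)) (C h35 (by decide)) (C h45 (by decide)) (C h05 (by decide))
  funext i j
  fin_cases i <;> fin_cases j
  · exact h00
  · exact h01
  · exact h02
  · exact h03
  · exact h04
  · exact h05
  · exact h10
  · exact h11
  · exact h12
  · exact h13
  · exact h14
  · exact h15
  · exact h20
  · exact h21
  · exact h22
  · exact h23
  · exact h24
  · exact h25
  · exact h30
  · exact h31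
  · exact h32
  · exact h33
  · exact h34
  · exact h35
  · exact h40
  · exact h41
  · exact h42
  · exact h43
  · exact h44
  · exact h45
  · exact h50
  · exact h51
  · exact h52
  · exact h53
  · exact h54
  · exact h55

def alt00 : Fin 6 → Fin 6 → Fin 6 :=
  ![![3, 1, 2, 0, 4, 5],
    ![1, 2, 3, 4, 5, 0],
    ![2, 3, 4, 5, 0, 1],
    ![0, 4, 5, 3, 1, 2],
    ![4, 5, 0, 1, 2, 3],
    ![5, 0, 1, 2, 3, 4]]

lemma ok00 : (∀ i, Function.Injective (alt00 i)) ∧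
    (∀ j, Function.Injective (fun i => alt00 i j)) ∧
    (∀ d ∈ S.erase (0, 0), alt00 d.1 d.2 = d.1 + d.2) ∧
    alt00 ≠ fun i j => i + j := by
  refine ⟨by decide, by decide, by decide, fun h => ?_⟩
  exact absurd (congrFun (congrFun h 0) 0) (by decide)

def alt01 : Fin 6 → Fin 6 → Fin 6 :=
  ![![0, 5, 2, 1, 4, 3],
    ![1, 2, 3, 0, 5, 4],
    ![2, 3, 4, 5, 0, 1],
    ![5, 4, 0, 3, 1, 2],
    ![3, 1, 5, 4, 2, 0],
    ![4, 0, 1, 2, 3, 5]]

lemma ok01 : (∀ i, Function.Injective (alt01 i)) ∧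
    (∀ j, Function.Injective (fun i => alt01 i j)) ∧
    (∀ d ∈ S.erase (0, 1), alt01 d.1 d.2 = d.1 + d.2) ∧
    alt01 ≠ fun i j => i + j := by
  refine ⟨by decide, by decide, by decide, fun h => ?_⟩
  exact absurd (congrFun (congrFun h 0) 1) (by decide)

def alt02 : Fin 6 → Fin 6 → Fin 6 :=
  ![![0, 1, 5, 2, 4, 3],
    ![1, 2, 3, 0, 5, 4],
    ![2, 3, 4, 5, 0, 1],
    ![5, 4, 0, 3, 1, 2],
    ![3, 5, 1, 4, 2, 0],
    ![4, 0, 2, 1, 3, 5]]

lemma ok02 : (∀ i, Function.Injective (alt02 i)) ∧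
    (∀ j, Function.Injective (fun i => alt02 i j)) ∧
    (∀ d ∈ S.erase (0, 2), alt02 d.1 d.2 = d.1 + d.2) ∧
    alt02 ≠ fun i j => i + j := by
  refine ⟨by decide, by decide, by decide, fun h => ?_⟩
  exact absurd (congrFun (congrFun h 0) 2) (by decide)

def alt04 : Fin 6 → Fin 6 → Fin 6 :=
  ![![0, 1, 2, 4, 3, 5],
    ![1, 2, 3, 0, 5, 4],
    ![2, 3, 4, 5, 0, 1],
    ![5, 4, 0, 3, 1, 2],
    ![3, 5, 1, 2, 4, 0],
    ![4, 0, 5, 1, 2, 3]]

lemma ok04 : (∀ i, Function.Injective (alt04 i)) ∧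
    (∀ j, Function.Injective (fun i => alt04 i j)) ∧
    (∀ d ∈ S.erase (0, 4), alt04 d.1 d.2 = d.1 + d.2) ∧
    alt04 ≠ fun i j => i + j := by
  refine ⟨by decide, by decide, by decide, fun h => ?_⟩
  exact absurd (congrFun (congrFun h 0) 4) (by decide)

def alt10 : Fin 6 → Fin 6 → Fin 6 :=
  ![![0, 1, 2, 3, 4, 5],
    ![4, 2, 3, 1, 5, 0],
    ![2, 3, 4, 5, 0, 1],
    ![3, 4, 5, 0, 1, 2],
    ![1, 5, 0, 2, 3, 4],
    ![5, 0, 1, 4, 2, 3]]

lemma ok10 : (∀ i, Function.Injective (alt10 i)) ∧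
    (∀ j, Function.Injective (fun i => alt10 i j)) ∧
    (∀ d ∈ S.erase (1, 0), alt10 d.1 d.2 = d.1 + d.2) ∧
    alt10 ≠ fun i j => i + j := by
  refine ⟨by decide, by decide, by decide, fun h => ?_⟩
  exact absurd (congrFun (congrFun h 1) 0) (by decide)

def alt11 : Fin 6 → Fin 6 → Fin 6 :=
  ![![0, 1, 2, 3, 4, 5],
    ![1, 5, 3, 4, 2, 0],
    ![2, 3, 4, 5, 0, 1],
    ![3, 4, 5, 0, 1, 2],
    ![4, 2, 0, 1, 5, 3],
    ![5, 0, 1, 2, 3, 4]]

lemma ok11 : (∀ i, Function.Injective (alt11 i)) ∧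
    (∀ j, Function.Injective (fun i => alt11 i j)) ∧
    (∀ d ∈ S.erase (1, 1), alt11 d.1 d.2 = d.1 + d.2) ∧
    alt11 ≠ fun i j => i + j := by
  refine ⟨by decide, by decide, by decide, fun h => ?_⟩
  exact absurd (congrFun (congrFun h 1) 1) (by decide)

def alt12 : Fin 6 → Fin 6 → Fin 6 :=
  ![![0, 1, 2, 3, 4, 5],
    ![1, 2, 5, 4, 3, 0],
    ![2, 3, 4, 5, 0, 1],
    ![5, 4, 3, 0, 1, 2],
    ![3, 5, 0, 1, 2, 4],
    ![4, 0, 1, 2, 5, 3]]

lemma ok12 : (∀ i, Function.Injective (alt12 i)) ∧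
    (∀ j, Function.Injective (fun i => alt12 i j)) ∧
    (∀ d ∈ S.erase (1, 2), alt12 d.1 d.2 = d.1 + d.2) ∧
    alt12 ≠ fun i j => i + j := by
  refine ⟨by decide, by decide, by decide, fun h => ?_⟩
  exact absurd (congrFun (congrFun h 1) 2) (by decide)

def alt20 : Fin 6 → Fin 6 → Fin 6 :=
  ![![0, 1, 2, 3, 4, 5],
    ![1, 2, 3, 0, 5, 4],
    ![5, 3, 4, 2, 0, 1],
    ![3, 4, 0, 5, 1, 2],
    ![2, 5, 1, 4, 3, 0],
    ![4, 0, 5, 1, 2, 3]]

lemma ok20 : (∀ i, Function.Injective (alt20 i)) ∧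
    (∀ j, Function.Injective (fun i => alt20 i j)) ∧
    (∀ d ∈ S.erase (2, 0), alt20 d.1 d.2 = d.1 + d.2) ∧
    alt20 ≠ fun i j => i + j := by
  refine ⟨by decide, by decide, by decide, fun h => ?_⟩
  exact absurd (congrFun (congrFun h 2) 0) (by decide)

def alt21 : Fin 6 → Fin 6 → Fin 6 :=
  ![![0, 1, 2, 5, 4, 3],
    ![1, 2, 3, 4, 5, 0],
    ![2, 5, 4, 3, 0, 1],
    ![3, 4, 5, 0, 1, 2],
    ![4, 3, 0, 1, 2, 5],
    ![5, 0, 1, 2, 3, 4]]

lemma ok21 : (∀ i, Function.Injective (alt21 i)) ∧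
    (∀ j, Function.Injective (fun i => alt21 i j)) ∧
    (∀ d ∈ S.erase (2, 1), alt21 d.1 d.2 = d.1 + d.2) ∧
    alt21 ≠ fun i j => i + j := by
  refine ⟨by decide, by decide, by decide, fun h => ?_⟩
  exact absurd (congrFun (congrFun h 2) 1) (by decide)

def alt22 : Fin 6 → Fin 6 → Fin 6 :=
  ![![0, 1, 2, 3, 4, 5],
    ![1, 2, 3, 0, 5, 4],
    ![2, 3, 5, 4, 0, 1],
    ![3, 4, 0, 5, 1, 2],
    ![4, 5, 1, 2, 3, 0],
    ![5, 0, 4, 1, 2, 3]]

lemma ok22 : (∀ i, Function.Injective (alt22 i)) ∧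
    (∀ j, Function.Injective (fun i => alt22 i j)) ∧
    (∀ d ∈ S.erase (2, 2), alt22 d.1 d.2 = d.1 + d.2) ∧
    alt22 ≠ fun i j => i + j := by
  refine ⟨by decide, by decide, by decide, fun h => ?_⟩
  exact absurd (congrFun (congrFun h 2) 2) (by decide)

def alt24 : Fin 6 → Fin 6 → Fin 6 :=
  ![![0, 1, 2, 5, 4, 3],
    ![1, 2, 3, 4, 0, 5],
    ![2, 3, 4, 0, 5, 1],
    ![5, 4, 0, 3, 1, 2],
    ![4, 5, 1, 2, 3, 0],
    ![3, 0, 5, 1, 2, 4]]

lemma ok24 : (∀ i, Function.Injective (alt24 i)) ∧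
    (∀ j, Function.Injective (fun i => alt24 i j)) ∧
    (∀ d ∈ S.erase (2, 4), alt24 d.1 d.2 = d.1 + d.2) ∧
    alt24 ≠ fun i j => i + j := by
  refine ⟨by decide, by decide, by decide, fun h => ?_⟩
  exact absurd (congrFun (congrFun h 2) 4) (by decide)

def alt25 : Fin 6 → Fin 6 → Fin 6 :=
  ![![0, 1, 2, 5, 4, 3],
    ![1, 2, 3, 0, 5, 4],
    ![2, 3, 4, 1, 0, 5],
    ![5, 4, 0, 3, 1, 2],
    ![3, 5, 1, 4, 2, 0],
    ![4, 0, 5, 2, 3, 1]]

lemma ok25 : (∀ i, Function.Injective (alt25 i)) ∧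
    (∀ j, Function.Injective (fun i => alt25 i j)) ∧
    (∀ d ∈ S.erase (2, 5), alt25 d.1 d.2 = d.1 + d.2) ∧
    alt25 ≠ fun i j => i + j := by
  refine ⟨by decide, by decide, by decide, fun h => ?_⟩
  exact absurd (congrFun (congrFun h 2) 5) (by decide)

def alt31 : Fin 6 → Fin 6 → Fin 6 :=
  ![![0, 1, 2, 3, 4, 5],
    ![1, 2, 3, 0, 5, 4],
    ![2, 3, 4, 5, 0, 1],
    ![3, 5, 0, 4, 1, 2],
    ![5, 4, 1, 2, 3, 0],
    ![4, 0, 5, 1, 2, 3]]

lemma ok31 : (∀ i, Function.Injective (alt31 i)) ∧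
    (∀ j, Function.Injective (fun i => alt31 i j)) ∧
    (∀ d ∈ S.erase (3, 1), alt31 d.1 d.2 = d.1 + d.2) ∧
    alt31 ≠ fun i j => i + j := by
  refine ⟨by decide, by decide, by decide, fun h => ?_⟩
  exact absurd (congrFun (congrFun h 3) 1) (by decide)

def alt34 : Fin 6 → Fin 6 → Fin 6 :=
  ![![0, 1, 2, 3, 4, 5],
    ![1, 2, 3, 0, 5, 4],
    ![2, 3, 4, 5, 0, 1],
    ![5, 4, 0, 1, 3, 2],
    ![3, 5, 1, 4, 2, 0],
    ![4, 0, 5, 2, 1, 3]]

lemma ok34 : (∀ i, Function.Injective (alt34 i)) ∧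
    (∀ j, Function.Injective (fun i => alt34 i j)) ∧
    (∀ d ∈ S.erase (3, 4), alt34 d.1 d.2 = d.1 + d.2) ∧
    alt34 ≠ fun i j => i + j := by
  refine ⟨by decide, by decide, by decide, fun h => ?_⟩
  exact absurd (congrFun (congrFun h 3) 4) (by decide)

def alt35 : Fin 6 → Fin 6 → Fin 6 :=
  ![![0, 1, 2, 3, 4, 5],
    ![1, 2, 3, 0, 5, 4],
    ![2, 3, 4, 5, 0, 1],
    ![3, 4, 5, 2, 1, 0],
    ![4, 5, 0, 1, 2, 3],
    ![5, 0, 1, 4, 3, 2]]

lemma ok35 : (∀ i, Function.Injective (alt35 i)) ∧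
    (∀ j, Function.Injective (fun i => alt35 i j)) ∧
    (∀ d ∈ S.erase (3, 5), alt35 d.1 d.2 = d.1 + d.2) ∧
    alt35 ≠ fun i j => i + j := by
  refine ⟨by decide, by decide, by decide, fun h => ?_⟩
  exact absurd (congrFun (congrFun h 3) 5) (by decide)

def alt51 : Fin 6 → Fin 6 → Fin 6 :=
  ![![0, 1, 2, 3, 4, 5],
    ![1, 2, 3, 4, 5, 0],
    ![2, 3, 4, 5, 0, 1],
    ![3, 4, 5, 0, 1, 2],
    ![5, 0, 1, 2, 3, 4],
    ![4, 5, 0, 1, 2, 3]]

lemma ok51 : (∀ i, Function.Injective (alt51 i)) ∧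
    (∀ j, Function.Injective (fun i => alt51 i j)) ∧
    (∀ d ∈ S.erase (5, 1), alt51 d.1 d.2 = d.1 + d.2) ∧
    alt51 ≠ fun i j => i + j := by
  refine ⟨by decide, by decide, by decide, fun h => ?_⟩
  exact absurd (congrFun (congrFun h 5) 1) (by decide)

lemma crit : ∀ c ∈ S, ∃ M : Fin 6 → Fin 6 → Fin 6,
    (∀ i, Function.Injective (M i)) ∧ (∀ j, Function.Injective (fun i => M i j)) ∧
    (∀ d ∈ S.erase c, M d.1 d.2 = d.1 + d.2) ∧ M ≠ fun i j => i + j := by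
  intro c hc
  simp only [S, Finset.mem_insert, Finset.mem_singleton] at hc
  rcases hc with rfl | rfl | rfl | rfl | rfl | rfl | rfl | rfl | rfl | rfl | rfl | rfl | rfl | rfl | rfl | rfl
  · exact ⟨_, ok00⟩
  · exact ⟨_, ok01⟩
  · exact ⟨_, ok02⟩
  · exact ⟨_, ok04⟩
  · exact ⟨_, ok10⟩
  · exact ⟨_, ok11⟩
  · exact ⟨_, ok12⟩
  · exact ⟨_, ok20⟩
  · exact ⟨_, ok21⟩
  · exact ⟨_, ok22⟩
  · exact ⟨_, ok24⟩
  · exact ⟨_, ok25⟩
  · exact ⟨_, ok31⟩
  · exact ⟨_, ok34⟩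
  · exact ⟨_, ok35⟩
  · exact ⟨_, ok51⟩

end Pool.Agent.H748Z.Crit
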