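import Pool.Agent.H748Z.CubMidA

/-! Transfer from the discrete fooling functions to the torus: the lower bound `S_mid`. -/

namespace Pool.Agent.H748Z.CubMid

open MeasureTheory Filter Finset Pool.Agent.H445Z.Cub

noncomputable section

/-- The family of shapes. -/
def shp (D : ℕ) (ℓ : ℕ → ℕ) (a : ℕ × (Fin D → ℕ)) : Fin (D + 1) → ℕ :=
  Fin.snoc (α := fun _ => ℕ) a.2 (ℓ a.1 - ∑ e, a.2 e)

lemma shp_sum {D : ℕ} {ℓ : ℕ → ℕ} {a : ℕ × (Fin D → ℕ)} (h : ∑ e, a.2 e ≤ ℓ a.1) :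
    ∑ e, shp D ℓ a e = ℓ a.1 := by
  rw [Fin.sum_univ_castSucc]
  simp only [shp, Fin.snoc_castSucc, Fin.snoc_last]
  omega

lemma card_cell (hg : S_grid) (M a : ℕ) (ha : a ≤ M) (t : ℝ)
    (hs : ((range (2 ^ a)).filter fun c : ℕ => hat a (t - c * dl a) ≠ 0).card ≤ 2) :
    (univ.filter fun y : Gr M => hat a (t - cell M a y * dl a) ≠ 0).card ≤ 2 * 2 ^ (M - a) := by
  have h := (hg M).2.2.2.2.2.2 a ha (fun c => if hat a (t - c * dl a) ≠ 0 then 1 else 0)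
  rw [Finset.sum_boole, Finset.sum_boole] at h
  have h2 : (((range (2 ^ a)).filter fun c : ℕ => hat a (t - c * dl a) ≠ 0).card : ℝ) ≤ 2 := by
    exact_mod_cast hs
  have h3 : ((univ.filter fun y : Gr M => hat a (t - cell M a y * dl a) ≠ 0).card : ℝ) ≤
      2 * 2 ^ (M - a) := by
    rw [h, mul_comm]
    exact mul_le_mul_of_nonneg_right h2 (by positivity)
  exact_mod_cast h3

/-- Grid points whose block does not vanish at some node. -/
def bad {d m : ℕ} (M : ℕ) (ξ : Fin m → Torus d) (s : Fin d → ℕ) : Finset (Fin d → Gr M) :=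
  univ.biUnion fun j => Fintype.piFinset fun e =>
    univ.filter fun y : Gr M => hat (s e) (rep (ξ j e) - cell M (s e) y * dl (s e)) ≠ 0

lemma mem_bad {d m M : ℕ} {ξ : Fin m → Torus d} {s : Fin d → ℕ} {y : Fin d → Gr M} :
    y ∈ bad M ξ s ↔
      ∃ j, ∀ e, hat (s e) (rep (ξ j e) - cell M (s e) (y e) * dl (s e)) ≠ 0 := by
  simp [bad]

lemma card_bad (hg : S_grid) {d m : ℕ} (M : ℕ) (ξ : Fin m → Torus d) (s : Fin d → ℕ)
    (hs : ∀ e, s e ≤ M)
    (hh : ∀ (a : ℕ) (t : ℝ),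
      ((range (2 ^ a)).filter fun c : ℕ => hat a (t - c * dl a) ≠ 0).card ≤ 2) :
    (bad M ξ s).card * 2 ^ (∑ e, s e) ≤ m * 2 ^ d * (2 ^ M) ^ d := by
  have h1 : (bad M ξ s).card ≤ m * ∏ e, (2 * 2 ^ (M - s e)) := by
    refine (Finset.card_biUnion_le).trans ?_
    refine (Finset.sum_le_sum (g := fun _ => ∏ e, (2 * 2 ^ (M - s e))) fun j _ => ?_).trans ?_
    · rw [Fintype.card_piFinset]
      exact Finset.prod_le_prod' fun e _ => card_cell hg M (s e) (hs e) _ (hh _ _)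
    · simp
  have h2 : (∏ e, (2 * 2 ^ (M - s e))) * 2 ^ (∑ e, s e) = 2 ^ d * (2 ^ M) ^ d := by
    rw [← Finset.prod_pow_eq_pow_sum, ← Finset.prod_mul_distrib]
    have : ∀ e, 2 * 2 ^ (M - s e) * 2 ^ s e = 2 * 2 ^ M := by
      intro e
      rw [mul_assoc, ← pow_add, Nat.sub_add_cancel (hs e)]
    simp_rw [this]
    rw [Finset.prod_const, Finset.card_univ, Fintype.card_fin, mul_pow]
  calc (bad M ξ s).card * 2 ^ (∑ e, s e) ≤ (m * ∏ e, (2 * 2 ^ (M - s e))) * 2 ^ (∑ e, s e) :=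
        Nat.mul_le_mul_right _ h1
    _ = m * 2 ^ d * (2 ^ M) ^ d := by rw [mul_assoc, h2, mul_assoc]

lemma F_node {d m : ℕ} (M : ℕ) (ξ : Fin m → Torus d) (T : Finset (Fin d → ℕ))
    (χ : (Fin d → ℕ) → (Fin d → Gr M) → ℝ) (hχ : ∀ s ∈ T, ∀ x ∈ bad M ξ s, χ s x = 1)
    (j : Fin m) : F hat M T χ (ξ j) = 0 := by
  unfold F
  refine Finset.sum_eq_zero fun s hs => Finset.sum_eq_zero fun y _ => ?_
  by_cases hy : y ∈ bad M ξ s
  · rw [hχ s hs y hy, sub_self, mul_zero]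
  · rw [mem_bad] at hy
    push Not at hy
    obtain ⟨e, he⟩ := hy j
    rw [Finset.prod_eq_zero (Finset.mem_univ e) (by rw [he, mul_zero]), zero_mul]

theorem thm_mid : S_etaBound → S_etaAlg → S_conv → S_grid → S_disc → S_mid := by
  intro hB hA hC hG hD D p r hD1 hp1 hr0 hr1
  obtain ⟨C, hC0, hCb⟩ := hB r hr0 hr1
  have hAr := hA r hr0 hr1
  set k : ℕ := ⌈p⌉₊ + 2 with hk
  obtain ⟨C', c0, hC', hdisc⟩ := hD D k r C (by omega) hr0 hr1 hC0
  set j0 : ℕ := 4 * D + 2 with hj0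
  set K : ℝ := (2 : ℝ) ^ j0 * 3 ^ D with hK
  have hK0 : 0 < K := by positivity
  refine ⟨C' * √K, max c0 (j0 + 1), by positivity, ?_⟩
  intro m n n0 lv hm hc0 hn0 hlv
  set M : ℕ := 2 * n + j0 with hM
  set ℓ : ℕ → ℕ := fun i => n + j0 + D * i with hℓ
  set box : Finset (ℕ × (Fin D → ℕ)) :=
    lv ×ˢ Fintype.piFinset fun _ : Fin D => Ico n0 (2 * n0) with hbox
  set T : Finset (Fin (D + 1) → ℕ) := box.image (shp D ℓ) with hT
  set lev : (Fin (D + 1) → ℕ) → ℕ := fun s => (∑ e, s e - (n + j0)) / D with hlev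
  have hbx : ∀ a ∈ box, a.1 ∈ lv ∧ ∀ e, n0 ≤ a.2 e ∧ a.2 e < 2 * n0 := by
    intro a ha
    rw [hbox, Finset.mem_product, Fintype.mem_piFinset] at ha
    exact ⟨ha.1, fun e => Finset.mem_Ico.1 (ha.2 e)⟩
  have hsum : ∀ a ∈ box, ∑ e, a.2 e ≤ ℓ a.1 := by
    intro a ha
    have : ∑ e, a.2 e ≤ ∑ _e : Fin D, 2 * n0 :=
      Finset.sum_le_sum fun e _ => ((hbx a ha).2 e).2.le
    rw [Finset.sum_const, Finset.card_univ, Fintype.card_fin, smul_eq_mul] at this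
    have h2 : D * (2 * n0) = 2 * D * n0 := by ring
    simp only [hℓ]
    omega
  have hlevs : ∀ a ∈ box, lev (shp D ℓ a) = a.1 := by
    intro a ha
    simp only [hlev]
    rw [shp_sum (hsum a ha)]
    simp only [hℓ]
    rw [Nat.add_sub_cancel_left, Nat.mul_div_cancel_left _ (by omega)]
  have hinj : Set.InjOn (shp D ℓ) box := by
    intro a ha b hb hab
    refine Prod.ext ?_ (funext fun e => ?_)
    · rw [← hlevs a ha, ← hlevs b hb, hab]
    · have := congrFun hab e.castSucc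
      simpa [shp] using this
  have hcard : (T.card : ℝ) = lv.card * (n0 : ℝ) ^ D := by
    rw [hT, Finset.card_image_of_injOn hinj, hbox, Finset.card_product, Fintype.card_piFinset]
    have : 2 * n0 - n0 = n0 := by omega
    simp [this]
  have hn0n : 2 * n0 ≤ n := by nlinarith
  have hTs : ∀ s ∈ T, lev s ∈ lv ∧ ∑ e, s e = ℓ (lev s) ∧ (∀ e, s e ≤ M) ∧
      ∀ e, e ≠ Fin.last D → c0 * (lev s + 2) ≤ s e := by
    intro s hs
    obtain ⟨a, ha, rfl⟩ := Finset.mem_image.1 hs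
    rw [hlevs a ha]
    have h1 := (hlv a.1 (hbx a ha).1).1
    have h2 : c0 * (a.1 + 2) ≤ max c0 (j0 + 1) * (a.1 + 2) :=
      Nat.mul_le_mul_right _ (le_max_left _ _)
    have h3 : (j0 + 1) * (a.1 + 2) ≤ max c0 (j0 + 1) * (a.1 + 2) :=
      Nat.mul_le_mul_right _ (le_max_right _ _)
    have h4 : a.1 ≤ n0 := by nlinarith
    have h5 : D * a.1 ≤ n := by nlinarith
    refine ⟨(hbx a ha).1, shp_sum (hsum a ha), fun e => ?_, fun e he => ?_⟩
    · refine Fin.lastCases ?_ (fun e => ?_) e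
      · simp only [shp, Fin.snoc_last, hℓ]; omega
      · simp only [shp, Fin.snoc_castSucc]
        have := ((hbx a ha).2 e).2
        omega
    · obtain ⟨e, rfl⟩ := Fin.exists_castSucc_eq.2 he
      simp only [shp, Fin.snoc_castSucc]
      have := ((hbx a ha).2 e).1
      omega
  rw [← hcard]
  set Q : ℝ := ∑ i ∈ lv, (2 : ℝ) ^ (2 * r * (n + D * i)) * ((n : ℝ) / 2 ^ i) ^ D with hQ
  rcases T.eq_empty_or_nonempty with hTe | hTn
  · rw [hTe]; simp
  have hTpos : (0 : ℝ) < T.card := by exact_mod_cast hTn.card_pos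
  set B : ℝ := T.card + C' * √K * √Q with hBdef
  have hB0 : 0 < B := by positivity
  unfold kappa
  refine le_iInf fun ξ => le_iInf fun w => ?_
  obtain ⟨χ, hχ1, hχ2, hχ3⟩ := hdisc M lv ℓ T lev (eta r) (bad M ξ)
    (fun a => ⟨(hAr a).2.1, (hAr a).2.2.1, (hCb a).1, (hCb a).2⟩) hTs
    (fun i hi => by have := (hlv i hi).2; omega)
    (fun s _ x y hxy hx => by
      rw [mem_bad] at hx ⊢
      obtain ⟨j, hj⟩ := hx
      exact ⟨j, fun e => by rw [← hxy e]; exact hj e⟩)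
    (fun s hs => by
      have h1 := card_bad hG M ξ s (hTs s hs).2.2.1 fun a t => (hAr a).2.2.2.2.2.1 t
      rw [(hTs s hs).2.1] at h1
      have h2 : 2 * (6 * 2 ^ lev s) ^ D * (m * 2 ^ (D + 1)) ≤ 2 ^ ℓ (lev s) := by
        have h6 : (6 * 2 ^ lev s) ^ D ≤ (2 ^ 3 * 2 ^ lev s) ^ D :=
          Nat.pow_le_pow_left (Nat.mul_le_mul_right _ (by norm_num)) _
        calc 2 * (6 * 2 ^ lev s) ^ D * (m * 2 ^ (D + 1))
            ≤ 2 * (2 ^ 3 * 2 ^ lev s) ^ D * (2 ^ n * 2 ^ (D + 1)) :=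
              Nat.mul_le_mul (Nat.mul_le_mul_left _ h6) (Nat.mul_le_mul_right _ hm)
          _ = 2 ^ ℓ (lev s) := by
              simp only [hℓ, hj0]
              rw [← pow_add, ← pow_mul, ← pow_add, ← pow_succ', ← pow_add]
              congr 1; ring
      have h3 : 2 * (6 * 2 ^ lev s) ^ D * (bad M ξ s).card * 2 ^ ℓ (lev s) ≤
          (2 ^ M) ^ (D + 1) * 2 ^ ℓ (lev s) := by
        calc 2 * (6 * 2 ^ lev s) ^ D * (bad M ξ s).card * 2 ^ ℓ (lev s)
            = 2 * (6 * 2 ^ lev s) ^ D * ((bad M ξ s).card * 2 ^ ℓ (lev s)) := by ring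
          _ ≤ 2 * (6 * 2 ^ lev s) ^ D * (m * 2 ^ (D + 1) * (2 ^ M) ^ (D + 1)) :=
              Nat.mul_le_mul_left _ h1
          _ = (2 ^ M) ^ (D + 1) * (2 * (6 * 2 ^ lev s) ^ D * (m * 2 ^ (D + 1))) := by ring
          _ ≤ _ := Nat.mul_le_mul_left _ h2
      exact Nat.le_of_mul_le_mul_right h3 (by positivity))
  set Q' : ℝ := ∑ i ∈ lv, (2 : ℝ) ^ (2 * r * ℓ i) * (((M : ℝ) + 1) / 2 ^ i) ^ D with hQ'
  have hQQ : Q' ≤ K * Q := by
    rw [hQ, Finset.mul_sum]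
    refine Finset.sum_le_sum fun i _ => ?_
    have e1 : (2 : ℝ) ^ (2 * r * ℓ i) ≤ 2 ^ j0 * (2 : ℝ) ^ (2 * r * (n + D * i)) := by
      rw [← Real.rpow_natCast, ← Real.rpow_add two_pos]
      refine Real.rpow_le_rpow_of_exponent_le one_le_two ?_
      simp only [hℓ]
      push_cast
      have : (0 : ℝ) ≤ j0 := Nat.cast_nonneg _
      nlinarith
    have e2 : (((M : ℝ) + 1) / 2 ^ i) ^ D ≤ 3 ^ D * ((n : ℝ) / 2 ^ i) ^ D := by
      rw [← mul_pow]
      refine pow_le_pow_left₀ (by positivity) ?_ D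
      rw [← mul_div_assoc]
      refine div_le_div_of_nonneg_right ?_ (by positivity)
      have : M + 1 ≤ 3 * n := by have := le_max_right c0 (j0 + 1); omega
      exact_mod_cast this
    calc (2 : ℝ) ^ (2 * r * ℓ i) * (((M : ℝ) + 1) / 2 ^ i) ^ D
        ≤ (2 ^ j0 * (2 : ℝ) ^ (2 * r * (n + D * i))) * (3 ^ D * ((n : ℝ) / 2 ^ i) ^ D) :=
          mul_le_mul e1 e2 (by positivity) (by positivity)
      _ = _ := by rw [hK]; ring
  have hAB : (T.card : ℝ) + C' * √Q' ≤ B := by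
    have : √Q' ≤ √K * √Q := by
      rw [← Real.sqrt_mul hK0.le]; exact Real.sqrt_le_sqrt hQQ
    rw [hBdef, mul_assoc]
    have := mul_le_mul_of_nonneg_left this hC'.le
    linarith
  have hnorm := norm_le (η := eta r) (fun a => (hAr a).2.1) (fun a => (hAr a).2.2.2.1) M T χ
    (k + 1) (by omega) p (by
      have := Nat.le_ceil p
      rw [hk]; push_cast; linarith) _ B (by positivity) hAB hB0 hχ3
  have hmem : (fun x => F hat M T χ x / B) ∈ sobolev (D + 1) r p :=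
    ⟨fun z => F (eta r) M T χ z / B,
      ((F_cont (fun a => (hAr a).2.2.2.1) M T χ).div_const B).aestronglyMeasurable, hnorm,
      (conv_F hC hr0 hr1 M T χ B).symm⟩
  refine le_iSup₂_of_le _ hmem (ENNReal.ofReal_le_ofReal ?_)
  simp only [F_node M ξ T χ hχ1, zero_div, mul_zero, Finset.sum_const_zero, sub_zero]
  refine le_trans ?_ (le_abs_self _)
  rw [integral_div]
  exact div_le_div_of_nonneg_right (int_F (fun a => (hAr a).2.2.2.2.1)
    (fun a => (hAr a).2.2.2.2.2.2) M T (fun s hs => (hTs s hs).2.2.1) χ hχ2) hB0.le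

end

end Pool.Agent.H748Z.CubMid
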