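import Pool.Agent.H445Z.CubSt

/-! Transfer from the discrete fooling functions to the torus: analytic part. -/

namespace Pool.Agent.H748Z.CubMid

open MeasureTheory Filter Finset Pool.Agent.H445Z.Cub

noncomputable section

lemma rep_coe (x : Circ) : ((rep x : ℝ) : Circ) = x := by
  unfold rep
  exact (AddCircle.equivIco (2 * Real.pi) 0).symm_apply_apply x

lemma rep_mem (x : Circ) : 0 ≤ rep x ∧ rep x < 2 * Real.pi := by
  have h := (AddCircle.equivIco (2 * Real.pi) 0 x).2
  exact ⟨h.1, h.2.trans_eq (zero_add _)⟩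

lemma per_rep {η : ℝ → ℝ} (hη : Function.Periodic η (2 * Real.pi)) (t c : ℝ) :
    η (rep (t : Circ) - c) = η (t - c) := by
  have h : ((rep (t : Circ) : ℝ) : Circ) = (t : Circ) := rep_coe _
  rw [QuotientAddGroup.eq, AddSubgroup.mem_zmultiples_iff] at h
  obtain ⟨n, hn⟩ := h
  have : t - c = (rep (t : Circ) - c) + n * (2 * Real.pi) := by
    rw [zsmul_eq_mul] at hn; linarith
  rw [this, hη.int_mul n]

lemma dl_pos (a : ℕ) : 0 < dl a := by unfold dl; positivity

lemma pow_mul_dl (a : ℕ) : (2 : ℝ) ^ a * dl a = 2 * Real.pi := by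
  unfold dl; field_simp

variable {d : ℕ}

/-- The test function built from the univariate blocks `g`. -/
def F (g : ℕ → ℝ → ℝ) (M : ℕ) (T : Finset (Fin d → ℕ))
    (χ : (Fin d → ℕ) → (Fin d → Gr M) → ℝ) (z : Torus d) : ℝ :=
  ∑ s ∈ T, ∑ y : Fin d → Gr M,
    (∏ e, ((2 : ℝ) ^ (M - s e))⁻¹ * g (s e) (rep (z e) - cell M (s e) (y e) * dl (s e))) *
      (1 - χ s y)

instance : IsProbabilityMeasure (torusMeasure d) := by
  unfold torusMeasure; infer_instance

instance : (torusMeasure d).IsAddRightInvariant := by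
  unfold torusMeasure; infer_instance

lemma F_cont {g : ℕ → ℝ → ℝ} (hg : ∀ a c, Continuous fun x : Circ => g a (rep x - c)) (M : ℕ)
    (T : Finset (Fin d → ℕ)) (χ : (Fin d → ℕ) → (Fin d → Gr M) → ℝ) :
    Continuous (F g M T χ) := by
  unfold F
  refine continuous_finsetSum _ fun s _ => continuous_finsetSum _ fun y _ => ?_
  refine Continuous.mul (continuous_finsetProd _ fun e _ => ?_) continuous_const
  exact continuous_const.mul ((hg _ _).comp (continuous_apply e))

lemma conv_F (hc : S_conv) {r : ℝ} (h0 : 0 < r) (h1 : r ≤ 1 / 2) (M : ℕ)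
    (T : Finset (Fin d → ℕ)) (χ : (Fin d → ℕ) → (Fin d → Gr M) → ℝ) (B : ℝ) :
    conv r (fun z => F (eta r) M T χ z / B) = fun x => F hat M T χ x / B := by
  funext x
  unfold conv
  have key : ∀ z : Torus d, kernel r (x - z) * (F (eta r) M T χ z / B) =
      ∑ s ∈ T, ∑ y : Fin d → Gr M,
        (∏ e, ((2 : ℝ) ^ (M - s e))⁻¹ * (bern r (rep (x e - z e)) *
          eta r (s e) (rep (z e) - cell M (s e) (y e) * dl (s e)))) * ((1 - χ s y) / B) := by
    intro z
    unfold F kernel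
    rw [Finset.sum_div, Finset.mul_sum]
    refine Finset.sum_congr rfl fun s _ => ?_
    rw [Finset.sum_div, Finset.mul_sum]
    refine Finset.sum_congr rfl fun y _ => ?_
    have : (∏ e, ((2 : ℝ) ^ (M - s e))⁻¹ * (bern r (rep (x e - z e)) *
          eta r (s e) (rep (z e) - cell M (s e) (y e) * dl (s e)))) =
        (∏ j, bern r (rep ((x - z) j))) * ∏ e, ((2 : ℝ) ^ (M - s e))⁻¹ *
          eta r (s e) (rep (z e) - cell M (s e) (y e) * dl (s e)) := by
      rw [← Finset.prod_mul_distrib]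
      refine Finset.prod_congr rfl fun e _ => ?_
      rw [Pi.sub_apply]; ring
    rw [this]; ring
  have hint : ∀ (s : Fin d → ℕ) (y : Fin d → Gr M), Integrable (fun z : Torus d =>
      (∏ e, ((2 : ℝ) ^ (M - s e))⁻¹ * (bern r (rep (x e - z e)) *
          eta r (s e) (rep (z e) - cell M (s e) (y e) * dl (s e)))) * ((1 - χ s y) / B))
      (torusMeasure d) := by
    intro s y
    refine Integrable.mul_const ?_ _
    unfold torusMeasure
    exact Integrable.fintype_prod (f := fun e w => ((2 : ℝ) ^ (M - s e))⁻¹ *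
      (bern r (rep (x e - w)) * eta r (s e) (rep w - cell M (s e) (y e) * dl (s e))))
      fun e => ((hc r h0 h1 (s e) _ (x e)).1).const_mul _
  simp_rw [key]
  rw [integral_finsetSum _ fun s _ => integrable_finsetSum _ fun y _ => hint s y]
  unfold F
  rw [Finset.sum_div]
  refine Finset.sum_congr rfl fun s _ => ?_
  rw [integral_finsetSum _ fun y _ => hint s y, Finset.sum_div]
  refine Finset.sum_congr rfl fun y _ => ?_
  rw [integral_mul_const]
  unfold torusMeasure
  rw [integral_fintype_prod_eq_prod (fun e w => ((2 : ℝ) ^ (M - s e))⁻¹ *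
      (bern r (rep (x e - w)) * eta r (s e) (rep w - cell M (s e) (y e) * dl (s e))))]
  simp_rw [integral_const_mul, (hc r h0 h1 _ _ _).2]
  ring

lemma int_F (hcont : ∀ a c, Continuous fun x : Circ => hat a (rep x - c))
    (hint : ∀ a c, ∫ x : Circ, hat a (rep x - c) ∂AddCircle.haarAddCircle = ((2 : ℝ) ^ a)⁻¹)
    (M : ℕ) (T : Finset (Fin d → ℕ)) (hT : ∀ s ∈ T, ∀ e, s e ≤ M)
    (χ : (Fin d → ℕ) → (Fin d → Gr M) → ℝ)
    (hχ : ∀ s ∈ T, 2 * ∑ x, χ s x ≤ (2 ^ M) ^ d) :
    (T.card : ℝ) / 2 ≤ ∫ z, F hat M T χ z ∂torusMeasure d := by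
  have hi : ∀ (s : Fin d → ℕ) (y : Fin d → Gr M), Integrable (fun z : Torus d =>
      (∏ e, ((2 : ℝ) ^ (M - s e))⁻¹ * hat (s e) (rep (z e) - cell M (s e) (y e) * dl (s e))) *
        (1 - χ s y)) (torusMeasure d) := by
    intro s y
    refine Continuous.integrable_of_hasCompactSupport ?_ (HasCompactSupport.of_compactSpace _)
    refine Continuous.mul (continuous_finsetProd _ fun e _ => ?_) continuous_const
    exact continuous_const.mul ((hcont _ _).comp (continuous_apply e))
  unfold F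
  rw [integral_finsetSum _ fun s _ => integrable_finsetSum _ fun y _ => hi s y]
  have : (T.card : ℝ) / 2 = ∑ _s ∈ T, (1 / 2 : ℝ) := by
    rw [Finset.sum_const, nsmul_eq_mul]; ring
  rw [this]
  refine Finset.sum_le_sum fun s hs => ?_
  rw [integral_finsetSum _ fun y _ => hi s y]
  have h2 : ∀ y : Fin d → Gr M, ∫ z : Torus d,
      (∏ e, ((2 : ℝ) ^ (M - s e))⁻¹ * hat (s e) (rep (z e) - cell M (s e) (y e) * dl (s e))) *
        (1 - χ s y) ∂torusMeasure d = (((2 : ℝ) ^ M) ^ d)⁻¹ * (1 - χ s y) := by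
    intro y
    rw [integral_mul_const]
    unfold torusMeasure
    rw [integral_fintype_prod_eq_prod (fun e w => ((2 : ℝ) ^ (M - s e))⁻¹ *
      hat (s e) (rep w - cell M (s e) (y e) * dl (s e)))]
    simp_rw [integral_const_mul, hint]
    congr 1
    have : ∀ e, ((2 : ℝ) ^ (M - s e))⁻¹ * ((2 : ℝ) ^ (s e))⁻¹ = ((2 : ℝ) ^ M)⁻¹ := by
      intro e
      rw [← mul_inv, ← pow_add, Nat.sub_add_cancel (hT s hs e)]
    simp_rw [this]
    rw [Finset.prod_const, Finset.card_univ, Fintype.card_fin, inv_pow]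
  simp_rw [h2]
  rw [← Finset.mul_sum, Finset.sum_sub_distrib, Finset.sum_const, Finset.card_univ,
    Fintype.card_fun, ZMod.card, Fintype.card_fin, nsmul_eq_mul, mul_one]
  have hp : (0 : ℝ) < ((2 : ℝ) ^ M) ^ d := by positivity
  have h3 := hχ s hs
  push_cast
  rw [inv_mul_eq_div, le_div_iff₀ hp]
  linarith

/-- The grid inside the torus. -/
def emb (M : ℕ) (x : Fin d → Gr M) : Torus d := fun e => (((x e).val * dl M : ℝ) : Circ)

lemma sum_shift {η : ℕ → ℝ → ℝ} (hη : ∀ a, Function.Periodic (η a) (2 * Real.pi)) (M : ℕ)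
    (T : Finset (Fin d → ℕ)) (χ : (Fin d → ℕ) → (Fin d → Gr M) → ℝ) (q : ℕ) (z : Torus d) :
    ∃ h : Fin d → ℝ, (∀ e, 0 ≤ h e ∧ h e < dl M) ∧
      ∑ x : Fin d → Gr M, |F η M T χ (z + emb M x)| ^ q =
        ∑ x : Fin d → Gr M, |∑ s ∈ T, ∑ y : Fin d → Gr M,
          (∏ e, kM M (s e) (η (s e)) (h e) (x e) (y e)) * (1 - χ s y)| ^ q := by
  have hd := dl_pos M
  set n0 : Fin d → ℕ := fun e => ⌊rep (z e) / dl M⌋₊ with hn0
  refine ⟨fun e => rep (z e) - n0 e * dl M, fun e => ?_, ?_⟩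
  · have h0 : 0 ≤ rep (z e) / dl M := div_nonneg (rep_mem _).1 hd.le
    have h1 : (n0 e : ℝ) ≤ rep (z e) / dl M := Nat.floor_le h0
    have h2 : rep (z e) / dl M < n0 e + 1 := Nat.lt_floor_add_one _
    rw [le_div_iff₀ hd] at h1
    rw [div_lt_iff₀ hd] at h2
    constructor <;> linarith
  · set x0 : Fin d → Gr M := fun e => (n0 e : Gr M) with hx0
    rw [← Equiv.sum_comp (Equiv.addRight x0) (fun x : Fin d → Gr M =>
      |∑ s ∈ T, ∑ y : Fin d → Gr M,
          (∏ e, kM M (s e) (η (s e)) (rep (z e) - n0 e * dl M) (x e) (y e)) * (1 - χ s y)| ^ q)]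
    refine Finset.sum_congr rfl fun x _ => ?_
    congr 2
    unfold F
    refine Finset.sum_congr rfl fun s _ => Finset.sum_congr rfl fun y _ => ?_
    congr 1
    refine Finset.prod_congr rfl fun e _ => ?_
    unfold kM
    congr 1
    have e1 : (z + emb M x) e = ((rep (z e) + (x e).val * dl M : ℝ) : Circ) := by
      rw [Pi.add_apply, AddCircle.coe_add, rep_coe]; rfl
    rw [e1, per_rep (hη _)]
    have e2 : (Equiv.addRight x0 x) e = (((x e).val + n0 e : ℕ) : Gr M) := by
      simp [hx0]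
    rw [e2, ZMod.val_natCast]
    set N := (x e).val + n0 e with hN
    have e3 : (N : ℝ) = (N % 2 ^ M : ℕ) + (2 : ℝ) ^ M * (N / 2 ^ M : ℕ) := by
      exact_mod_cast (Nat.mod_add_div N (2 ^ M)).symm
    have e4 : ((x e).val : ℝ) = N - n0 e := by rw [hN]; push_cast; ring
    have e5 : rep (z e) + (x e).val * dl M - cell M (s e) (y e) * dl (s e) =
        (rep (z e) - n0 e * dl M + (N % 2 ^ M : ℕ) * dl M - cell M (s e) (y e) * dl (s e)) +
          (N / 2 ^ M : ℕ) * (2 * Real.pi) := by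
      rw [e4, ← pow_mul_dl M]
      nth_rewrite 1 [e3]
      ring
    rw [e5, (hη _).nat_mul]

lemma norm_le {η : ℕ → ℝ → ℝ} (hη : ∀ a, Function.Periodic (η a) (2 * Real.pi))
    (hg : ∀ a c, Continuous fun x : Circ => η a (rep x - c)) (M : ℕ)
    (T : Finset (Fin d → ℕ)) (χ : (Fin d → ℕ) → (Fin d → Gr M) → ℝ) (q : ℕ) (hq : q ≠ 0)
    (p : ℝ) (hp : p ≤ q) (A B : ℝ) (hA : 0 ≤ A) (hAB : A ≤ B) (hB : 0 < B)
    (hb : ∀ h : Fin d → ℝ, (∀ e, 0 ≤ h e ∧ h e < dl M) →
      ∑ x : Fin d → Gr M, |∑ s ∈ T, ∑ y : Fin d → Gr M,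
          (∏ e, kM M (s e) (η (s e)) (h e) (x e) (y e)) * (1 - χ s y)| ^ q ≤
        A ^ q * (2 ^ M) ^ d) :
    eLpNorm (fun z => F η M T χ z / B) (ENNReal.ofReal p) (torusMeasure d) ≤ 1 := by
  have hc := F_cont hg M T χ
  have hc2 : Continuous fun z => F η M T χ z / B := hc.div_const B
  have hP : (0 : ℝ) < ((2 : ℝ) ^ M) ^ d := by positivity
  have hi : ∀ x : Fin d → Gr M, Integrable (fun z => |F η M T χ (z + emb M x)| ^ q)
      (torusMeasure d) := fun x =>
    Continuous.integrable_of_hasCompactSupport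
      (((hc.comp (continuous_id.add continuous_const)).abs).pow q)
      (HasCompactSupport.of_compactSpace _)
  have h1 : ∫ z, |F η M T χ z| ^ q ∂torusMeasure d ≤ A ^ q := by
    have e1 : ∫ z, ∑ x : Fin d → Gr M, |F η M T χ (z + emb M x)| ^ q ∂torusMeasure d =
        ((2 : ℝ) ^ M) ^ d * ∫ z, |F η M T χ z| ^ q ∂torusMeasure d := by
      rw [integral_finsetSum _ fun x _ => hi x]
      have : ∀ x : Fin d → Gr M, ∫ z, |F η M T χ (z + emb M x)| ^ q ∂torusMeasure d =
          ∫ z, |F η M T χ z| ^ q ∂torusMeasure d := fun x =>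
        integral_add_right_eq_self (fun z => |F η M T χ z| ^ q) (emb M x)
      simp_rw [this]
      rw [Finset.sum_const, Finset.card_univ, Fintype.card_fun, ZMod.card, Fintype.card_fin,
        nsmul_eq_mul]
      push_cast; rfl
    have e2 : ∫ z, ∑ x : Fin d → Gr M, |F η M T χ (z + emb M x)| ^ q ∂torusMeasure d ≤
        ∫ _z, A ^ q * ((2 : ℝ) ^ M) ^ d ∂torusMeasure d := by
      refine integral_mono (integrable_finsetSum _ fun x _ => hi x) (integrable_const _)
        fun z => ?_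
      obtain ⟨h, hh, he⟩ := sum_shift hη M T χ q z
      simp only
      rw [he]
      exact hb h hh
    rw [e1, integral_const, probReal_univ, one_smul, mul_comm] at e2
    exact le_of_mul_le_mul_right e2 hP
  have hm : MemLp (fun z => F η M T χ z / B) (q : ENNReal) (torusMeasure d) :=
    hc2.memLp_of_hasCompactSupport (HasCompactSupport.of_compactSpace _)
  refine (eLpNorm_le_eLpNorm_of_exponent_le (q := (q : ENNReal)) ?_
    hc2.aestronglyMeasurable).trans ?_
  · rw [← ENNReal.ofReal_natCast]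
    exact ENNReal.ofReal_le_ofReal hp
  · rw [hm.eLpNorm_eq_integral_rpow_norm (by exact_mod_cast hq) (ENNReal.natCast_ne_top q),
      ← ENNReal.ofReal_one]
    refine ENNReal.ofReal_le_ofReal (Real.rpow_le_one (integral_nonneg fun z => by positivity) ?_
      (by positivity))
    have : ∀ z, ‖F η M T χ z / B‖ ^ (q : ENNReal).toReal = |F η M T χ z| ^ q / B ^ q := by
      intro z
      rw [ENNReal.toReal_natCast, Real.rpow_natCast, Real.norm_eq_abs, abs_div, abs_of_pos hB,
        div_pow]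
    simp_rw [this]
    rw [integral_div, div_le_one (by positivity)]
    exact h1.trans (pow_le_pow_left₀ hA hAB q)

end

end Pool.Agent.H748Z.CubMid
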