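import Mathlib

set_option autoImplicit false

open PowerSeries Filter Topology
open scoped PowerSeries.WithPiTopology

namespace Pool.Agent.H748Z.Lamp

variable (p : ℕ) [hp : Fact p.Prime]

abbrev R : Type := PowerSeries (ZMod p)

instance : CompactSpace (R p) := inferInstanceAs (CompactSpace ((Unit →₀ ℕ) → ZMod p))

instance : TotallyDisconnectedSpace (R p) :=
  inferInstanceAs (TotallyDisconnectedSpace ((Unit →₀ ℕ) → ZMod p))

variable {p}

lemma continuous_of_coeff {T : Type*} [TopologicalSpace T] {f : T → R p}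
    (h : ∀ n, Continuous fun t => coeff n (f t)) : Continuous f := by
  rw [continuous_iff_continuousAt]
  intro t
  rw [ContinuousAt, PowerSeries.WithPiTopology.tendsto_iff_coeff_tendsto]
  intro d
  exact (h d).continuousAt

lemma cont_coeff (n : ℕ) : Continuous fun g : R p => coeff n g :=
  PowerSeries.WithPiTopology.continuous_coeff (ZMod p) n

lemma toZMod_eq_zero_iff (x : ℤ_[p]) : PadicInt.toZMod x = 0 ↔ (p : ℤ_[p]) ∣ x := by
  rw [← RingHom.mem_ker, PadicInt.ker_toZMod, PadicInt.maximalIdeal_eq_span_p,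
    Ideal.mem_span_singleton]

lemma continuous_toZMod : Continuous (PadicInt.toZMod : ℤ_[p] → ZMod p) := by
  refine continuous_of_continuousAt_zero (PadicInt.toZMod (p := p)).toAddMonoidHom ?_
  rw [ContinuousAt, map_zero]
  refine tendsto_const_nhds.congr' ?_
  have : Metric.ball (0 : ℤ_[p]) 1 ∈ 𝓝 (0 : ℤ_[p]) := Metric.ball_mem_nhds _ one_pos
  filter_upwards [this] with x hx
  rw [mem_ball_zero_iff, PadicInt.norm_lt_one_iff_dvd] at hx
  exact ((toZMod_eq_zero_iff x).2 hx).symm

/-- the series `(1 + X) ^ c` -/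
noncomputable def a (c : ℤ_[p]) : R p :=
  PowerSeries.map (PadicInt.toZMod (p := p)) (binomialSeries ℤ_[p] c)

lemma a_add (c d : ℤ_[p]) : a (c + d) = a c * a d := by
  simp only [a, binomialSeries_add, map_mul]

@[simp] lemma a_zero : a (0 : ℤ_[p]) = 1 := by
  simp only [a, binomialSeries_zero, map_one]

lemma a_nat (n : ℕ) : a (n : ℤ_[p]) = (1 + X) ^ n := by
  simp only [a, binomialSeries_nat, map_pow, map_add, map_one, map_X]

lemma a_nat_mul (n : ℕ) (c : ℤ_[p]) : a ((n : ℤ_[p]) * c) = a c ^ n := by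
  induction n with
  | zero => simp
  | succ n ih => rw [Nat.cast_succ, add_mul, one_mul, a_add, ih, pow_succ]

lemma coeff_a (c : ℤ_[p]) (n : ℕ) : coeff n (a c) = PadicInt.toZMod (Ring.choose c n) := by
  simp [a]

lemma continuous_a : Continuous (a : ℤ_[p] → R p) :=
  continuous_of_coeff fun n => by
    simp only [coeff_a]
    exact continuous_toZMod.comp (PadicInt.continuous_choose n)

lemma constantCoeff_a (c : ℤ_[p]) : constantCoeff (a c) = 1 := by
  rw [← coeff_zero_eq_constantCoeff_apply, coeff_a]; simp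

lemma a_neg_mul (c : ℤ_[p]) : a (-c) * a c = 1 := by rw [← a_add]; simp

lemma a_mul_neg (c : ℤ_[p]) : a c * a (-c) = 1 := by rw [← a_add]; simp

instance : CharP (R p) p := charP_of_injective_algebraMap (algebraMap (ZMod p) (R p)).injective p

lemma a_pow (k : ℕ) : a ((p : ℤ_[p]) ^ k) = 1 + X ^ (p ^ k) := by
  rw [← Nat.cast_pow, a_nat, add_pow_char_pow, one_pow]

lemma a_eq_one {c : ℤ_[p]} (h : a c = 1) : c = 0 := by
  by_contra hc
  have e := PadicInt.unitCoeff_spec hc
  set u := PadicInt.unitCoeff hc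
  rw [e, mul_comm, ← Nat.cast_pow, a_nat_mul] at h
  have h2 : (a (u : ℤ_[p]) - 1) ^ (p ^ c.valuation) = 0 := by
    rw [sub_pow_char_pow, h, one_pow, sub_self]
  have h3 : a (u : ℤ_[p]) = 1 := sub_eq_zero.1 (pow_eq_zero_iff (pow_ne_zero _ hp.out.ne_zero) |>.1 h2)
  have h4 := coeff_a (u : ℤ_[p]) 1
  rw [h3, Ring.choose_one_right] at h4
  simp at h4
  exact (u.isUnit.map (PadicInt.toZMod (p := p))).ne_zero h4.symm

variable (p) in
/-- the pro-`p` lamplighter group -/
def G : Type := R p × ℤ_[p]

noncomputable instance : TopologicalSpace (G p) := inferInstanceAs (TopologicalSpace (R p × ℤ_[p]))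
instance : CompactSpace (G p) := inferInstanceAs (CompactSpace (R p × ℤ_[p]))
instance : T2Space (G p) := inferInstanceAs (T2Space (R p × ℤ_[p]))
instance : TotallyDisconnectedSpace (G p) :=
  inferInstanceAs (TotallyDisconnectedSpace (R p × ℤ_[p]))

namespace G

def mk (b : R p) (c : ℤ_[p]) : G p := (b, c)
def b (g : G p) : R p := Prod.fst g
def c (g : G p) : ℤ_[p] := Prod.snd g

@[simp] lemma b_mk (x : R p) (y : ℤ_[p]) : (mk x y).b = x := rfl
@[simp] lemma c_mk (x : R p) (y : ℤ_[p]) : (mk x y).c = y := rfl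

@[ext] lemma ext {g h : G p} (h1 : g.b = h.b) (h2 : g.c = h.c) : g = h := Prod.ext h1 h2

noncomputable instance : Mul (G p) := ⟨fun g h => mk (g.b + a g.c * h.b) (g.c + h.c)⟩
noncomputable instance : One (G p) := ⟨mk 0 0⟩
noncomputable instance : Inv (G p) := ⟨fun g => mk (-(a (-g.c) * g.b)) (-g.c)⟩

@[simp] lemma mul_b (g h : G p) : (g * h).b = g.b + a g.c * h.b := rfl
@[simp] lemma mul_c (g h : G p) : (g * h).c = g.c + h.c := rfl
@[simp] lemma one_b : (1 : G p).b = 0 := rfl
@[simp] lemma one_c : (1 : G p).c = 0 := rfl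
@[simp] lemma inv_b (g : G p) : (g⁻¹).b = -(a (-g.c) * g.b) := rfl
@[simp] lemma inv_c (g : G p) : (g⁻¹).c = -g.c := rfl

noncomputable instance : Group (G p) :=
  Group.ofLeftAxioms
    (fun x y z => by
      ext1
      · simp only [mul_b, mul_c, a_add]; ring
      · simp only [mul_c]; ring)
    (fun x => by ext1 <;> simp)
    (fun x => by ext1 <;> simp)

lemma continuous_b : Continuous (b : G p → R p) := continuous_fst
lemma continuous_c : Continuous (c : G p → ℤ_[p]) := continuous_snd

lemma continuous_mk {T : Type*} [TopologicalSpace T] {f : T → R p} {g : T → ℤ_[p]}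
    (hf : Continuous f) (hg : Continuous g) : Continuous fun t => mk (f t) (g t) :=
  hf.prodMk hg

instance : IsTopologicalGroup (G p) where
  continuous_mul := continuous_mk
    ((continuous_b.comp continuous_fst).add
      ((continuous_a.comp (continuous_c.comp continuous_fst)).mul
        (continuous_b.comp continuous_snd)))
    ((continuous_c.comp continuous_fst).add (continuous_c.comp continuous_snd))
  continuous_inv := continuous_mk
    (((continuous_a.comp continuous_c.neg).mul continuous_b).neg) continuous_c.neg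

lemma pow_c (g : G p) (n : ℕ) : (g ^ n).c = (n : ℤ_[p]) * g.c := by
  induction n with
  | zero => simp
  | succ n ih => rw [pow_succ, mul_c, ih]; push_cast; ring

lemma pow_b (g : G p) (n : ℕ) : (g ^ n).b = (∑ i ∈ Finset.range n, a g.c ^ i) * g.b := by
  induction n with
  | zero => simp
  | succ n ih => rw [pow_succ, mul_b, ih, pow_c, a_nat_mul, Finset.sum_range_succ]; ring

lemma pow_pow_dvd (g : G p) (j : ℕ) : (X : R p) ^ j ∣ (g ^ (p ^ j)).b := by
  induction j with
  | zero => simp
  | succ j ih =>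
    rw [pow_succ p j, pow_mul, pow_b, pow_succ']
    refine mul_dvd_mul ?_ ih
    rw [X_dvd_iff, map_sum]
    simp [constantCoeff_a]

lemma tendsto_pow_pow (g : G p) : Tendsto (fun j : ℕ => g ^ (p ^ j)) atTop (𝓝 1) := by
  have h1 : Tendsto (fun j : ℕ => (g ^ (p ^ j)).b) atTop (𝓝 0) := by
    rw [PowerSeries.WithPiTopology.tendsto_iff_coeff_tendsto]
    intro d
    refine tendsto_atTop_of_eventually_const (i₀ := d + 1) fun j hj => ?_
    rw [map_zero]
    exact X_pow_dvd_iff.1 (pow_pow_dvd g j) d (by omega)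
  have h2 : Tendsto (fun j : ℕ => (g ^ (p ^ j)).c) atTop (𝓝 0) := by
    simp only [pow_c, Nat.cast_pow]
    have : Tendsto (fun j : ℕ => (p : ℤ_[p]) ^ j) atTop (𝓝 0) :=
      tendsto_pow_atTop_nhds_zero_of_norm_lt_one
        ((PadicInt.norm_lt_one_iff_dvd _).2 dvd_rfl)
    simpa using this.mul_const g.c
  exact h1.prodMk_nhds h2

theorem index_open (N : Subgroup (G p)) (hN : N.Normal) (ho : IsOpen (N : Set (G p))) :
    ∃ k : ℕ, N.index = p ^ k := by
  have hfin : Finite (G p ⧸ N) := Subgroup.quotient_finite_of_isOpen N ho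
  have hP : IsPGroup p (G p ⧸ N) := by
    intro x
    obtain ⟨g, rfl⟩ := QuotientGroup.mk_surjective x
    obtain ⟨j, hj⟩ := ((tendsto_pow_pow g).eventually (ho.mem_nhds N.one_mem)).exists
    exact ⟨j, by rw [← QuotientGroup.mk_pow, QuotientGroup.eq_one_iff]; exact hj⟩
  exact IsPGroup.iff_card.1 hP

end G

/-- closed subsets of `ℤ_p` containing the natural numbers are everything -/
lemma padic_ind {P : ℤ_[p] → Prop} (hc : IsClosed {x | P x}) (h : ∀ n : ℕ, P n) (x : ℤ_[p]) :
    P x := DenseRange.induction_on PadicInt.denseRange_natCast x hc h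

lemma continuous_expand (q : ℕ) (hq : q ≠ 0) :
    Continuous (expand q hq : R p → R p) :=
  continuous_of_coeff fun n => by
    simp only [coeff_expand]
    split_ifs
    · exact cont_coeff _
    · exact continuous_const

/-- a closed additive subgroup invariant under `X ^ q` is a module over the series in `X ^ q` -/
lemma expand_mul_mem (M : AddSubgroup (R p)) (hM : IsClosed (M : Set (R p))) (q : ℕ) (hq : q ≠ 0)
    (hy : ∀ u ∈ M, X ^ q * u ∈ M) (r : R p) {u : R p} (hu : u ∈ M) : expand q hq r * u ∈ M := by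
  have hcl : IsClosed {r : R p | expand q hq r * u ∈ M} :=
    hM.preimage ((continuous_expand q hq).mul continuous_const)
  refine DenseRange.induction_on (PowerSeries.WithPiTopology.denseRange_toPowerSeries (ZMod p)) r
    hcl fun f => ?_
  induction f using Polynomial.induction_on' with
  | add f g hf hg => rw [Polynomial.coe_add, map_add, add_mul]; exact M.add_mem hf hg
  | monomial n t =>
    have h1 : ∀ n : ℕ, (X ^ q) ^ n * u ∈ M := by
      intro n
      induction n with
      | zero => simpa using hu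
      | succ n ih => rw [pow_succ', mul_assoc]; exact hy _ ih
    rw [Polynomial.coe_monomial, expand_monomial, monomial_eq_C_mul_X_pow, pow_mul, mul_assoc]
    obtain ⟨m, rfl⟩ := ZMod.natCast_zmod_surjective t
    rw [map_natCast, ← nsmul_eq_mul]
    exact M.nsmul_mem (h1 n) m

end Pool.Agent.H748Z.Lamp
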