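import Mathlib
import Pool.Agent.H748Z.LampA

set_option autoImplicit false

open PowerSeries Filter Topology
open scoped PowerSeries.WithPiTopology

namespace Pool.Agent.H748Z.Lamp

variable {p : ℕ} [hp : Fact p.Prime]

/-- shift data on an additive subgroup -/
def Good (M : AddSubgroup (R p)) (y : R p) : Prop :=
  ∃ (lam : M →+ ZMod p) (Φ : M →+ M), Continuous lam ∧ Continuous Φ ∧ (∃ u, lam u = 1) ∧
    (∀ u v : M, (v : R p) = y * u → lam v = 0 ∧ (lam u = 0 → (Φ v : R p) = y * Φ u)) ∧
    ∀ u, (∀ n, lam (Φ^[n] u) = 0) → u = 0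

lemma iter_seq {M : Type*} [AddCommGroup M] (s : M → ℕ → ZMod p) (Φ : M → M)
    (h : ∀ u n, s (Φ u) n = s u (n + 1)) (n : ℕ) : ∀ u i, s (Φ^[n] u) i = s u (i + n) := by
  induction n with
  | zero => simp
  | succ n ih => intro u i; rw [Function.iterate_succ_apply, ih, h, add_assoc]

theorem good_finite (M : AddSubgroup (R p)) (hfin : Finite M) (hne : M ≠ ⊥) : Good M 0 := by
  classical
  let N : Submodule (ZMod p) (R p) :=
    { carrier := M
      add_mem' := fun h1 h2 => M.add_mem h1 h2
      zero_mem' := M.zero_mem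
      smul_mem' := fun t u hu => by
        obtain ⟨m, rfl⟩ := ZMod.natCast_zmod_surjective t
        rw [Nat.cast_smul_eq_nsmul]
        exact M.nsmul_mem hu m }
  have hN : Finite N := hfin
  have : Module.Finite (ZMod p) N := Module.Finite.of_finite
  have hnt : Nontrivial N := (AddSubgroup.nontrivial_iff_ne_bot M).2 hne
  obtain ⟨m, hm⟩ : ∃ m, Module.finrank (ZMod p) N = m + 1 :=
    Nat.exists_eq_succ_of_ne_zero (Module.finrank_pos (R := ZMod p) (M := N)).ne'
  let b : Module.Basis (Fin (m + 1)) (ZMod p) N := Module.finBasisOfFinrankEq _ _ hm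
  let s : N → ℕ → ZMod p := fun u i => if h : i < m + 1 then b.repr u ⟨i, h⟩ else 0
  have hsadd : ∀ u v i, s (u + v) i = s u i + s v i := by
    intro u v i
    simp only [s]
    split_ifs <;> simp
  let Φ : N →+ N := AddMonoidHom.mk' (fun u => b.equivFun.symm fun i => s u (i + 1)) (by
    intro u v
    rw [← map_add]
    congr 1
    ext i
    exact hsadd u v _)
  have hΦ : ∀ u n, s (Φ u) n = s u (n + 1) := by
    intro u n
    by_cases h : n < m + 1
    · have : s (Φ u) n = b.equivFun (Φ u) ⟨n, h⟩ := by simp only [s, dif_pos h]; rfl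
      rw [this]
      simp only [Φ, AddMonoidHom.mk'_apply, LinearEquiv.apply_symm_apply]
    · simp only [s, dif_neg h, dif_neg (show ¬ n + 1 < m + 1 by omega)]
  let lam : N →+ ZMod p := AddMonoidHom.mk' (fun u => s u 0) fun u v => hsadd u v 0
  refine ⟨lam, Φ, continuous_of_discreteTopology, continuous_of_discreteTopology, ⟨b 0, ?_⟩,
    ?_, ?_⟩
  · change s (b 0) 0 = 1
    simp [s]
  · intro u v hv
    have : v = 0 := Subtype.ext (by simpa using hv)
    subst this
    simp
  · intro u hu
    apply b.repr.injective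
    ext i
    have h1 := iter_seq s Φ hΦ i u 0
    have h2 : s (Φ^[i] u) 0 = 0 := hu i
    rw [h2, zero_add] at h1
    simp only [s, dif_pos i.2] at h1
    simpa using h1.symm

variable (p) in
/-- the ring of power series as a module over itself through `X ↦ X ^ q` -/
def Rq (q : ℕ) (_hq : q ≠ 0) : Type := R p

noncomputable instance (q : ℕ) (hq : q ≠ 0) : AddCommGroup (Rq p q hq) :=
  inferInstanceAs (AddCommGroup (R p))

noncomputable instance (q : ℕ) (hq : q ≠ 0) : Module (R p) (Rq p q hq) :=
  Module.compHom (R p) (expand q hq : R p →ₐ[ZMod p] R p).toRingHom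

def toRq (q : ℕ) (hq : q ≠ 0) (u : R p) : Rq p q hq := u
def ofRq {q : ℕ} {hq : q ≠ 0} (u : Rq p q hq) : R p := u

lemma ofRq_smul {q : ℕ} {hq : q ≠ 0} (r : R p) (u : Rq p q hq) :
    ofRq (r • u) = expand q hq r * ofRq u := rfl

lemma ofRq_sum {q : ℕ} {hq : q ≠ 0} {ι : Type*} (s : Finset ι) (f : ι → Rq p q hq) :
    ofRq (∑ i ∈ s, f i) = ∑ i ∈ s, ofRq (f i) := rfl

lemma expand_inj (q : ℕ) (hq : q ≠ 0) {r : R p} (h : expand q hq r = 0) : r = 0 := by
  ext n
  rw [← coeff_expand_mul q hq, h]; simp

lemma decomp (q : ℕ) (hq : q ≠ 0) (g : R p) :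
    g = ∑ i : Fin q, expand q hq (PowerSeries.mk fun n => coeff (q * n + i) g) * X ^ (i : ℕ) := by
  ext n
  have hq0 : 0 < q := Nat.pos_of_ne_zero hq
  rw [map_sum, Finset.sum_eq_single (⟨n % q, Nat.mod_lt n hq0⟩ : Fin q)]
  · rw [coeff_mul_X_pow', if_pos (Nat.mod_le n q)]
    have : n - n % q = q * (n / q) := by have := Nat.div_add_mod n q; omega
    simp only [this, coeff_expand_mul, coeff_mk, Nat.div_add_mod]
  · intro i _ hi
    rw [coeff_mul_X_pow']
    split_ifs with h
    · apply coeff_expand_of_not_dvd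
      rintro ⟨k, hk⟩
      apply hi
      ext
      have : n = q * k + i := by omega
      simp only [this, Nat.mul_add_mod, Nat.mod_eq_of_lt i.2]
    · rfl
  · simp

instance (q : ℕ) (hq : q ≠ 0) : Module.Finite (R p) (Rq p q hq) := by
  classical
  refine ⟨⟨Finset.univ.image fun i : Fin q => toRq q hq (X ^ (i : ℕ)), ?_⟩⟩
  rw [eq_top_iff]
  intro g _
  have : g = ∑ i : Fin q, (PowerSeries.mk fun n => coeff (q * n + i) (ofRq g) : R p) •
      toRq q hq (X ^ (i : ℕ)) := decomp q hq (ofRq g)
  rw [this]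
  refine Submodule.sum_mem _ fun i _ => Submodule.smul_mem _ _ (Submodule.subset_span ?_)
  simp

instance (q : ℕ) (hq : q ≠ 0) : Module.IsTorsionFree (R p) (Rq p q hq) := by
  refine Module.IsTorsionFree.of_smul_eq_zero fun r u h => ?_
  have h1 : expand q hq r * ofRq u = 0 := h
  rcases mul_eq_zero.1 h1 with h2 | h2
  · exact Or.inl (expand_inj q hq h2)
  · exact Or.inr h2

theorem good_free (M : AddSubgroup (R p)) (hM : IsClosed (M : Set (R p))) (q : ℕ) (hq : q ≠ 0)
    (hy : ∀ u ∈ M, X ^ q * u ∈ M) (hne : M ≠ ⊥) : Good M (X ^ q) := by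
  classical
  let N : Submodule (R p) (Rq p q hq) :=
    { carrier := {u | ofRq u ∈ M}
      add_mem' := fun h1 h2 => M.add_mem h1 h2
      zero_mem' := M.zero_mem
      smul_mem' := fun r u hu => expand_mul_mem M hM q hq hy r hu }
  have hnt : Nontrivial N := (AddSubgroup.nontrivial_iff_ne_bot M).2 hne
  obtain ⟨m, hm⟩ : ∃ m, Module.finrank (R p) N = m + 1 :=
    Nat.exists_eq_succ_of_ne_zero (Module.finrank_pos (R := R p) (M := N)).ne'
  let b : Module.Basis (Fin (m + 1)) (R p) N := Module.finBasisOfFinrankEq _ _ hm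
  have hm0 : 0 < m + 1 := Nat.succ_pos m
  let co : M → Fin (m + 1) → R p := fun u => b.equivFun u
  let E : (Fin (m + 1) → R p) → M := fun c => b.equivFun.symm c
  have hcoE : ∀ c, co (E c) = c := fun c => b.equivFun.apply_symm_apply c
  have hEco : ∀ u, E (co u) = u := fun u => b.equivFun.symm_apply_apply u
  have hEval : ∀ c, (E c : R p) = ∑ i, expand q hq (c i) * ofRq (b i).1 := by
    intro c
    have : (E c : R p) = ofRq ((b.equivFun.symm c : N) : Rq p q hq) := rfl
    rw [this, Module.Basis.equivFun_symm_apply, Submodule.coe_sum, ofRq_sum]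
    rfl
  have hEcont : Continuous E := by
    refine continuous_induced_rng.2 ?_
    have : (Subtype.val ∘ E) = fun c => ∑ i, expand q hq (c i) * ofRq (b i).1 := funext hEval
    rw [this]
    refine continuous_finsetSum _ fun i _ => Continuous.mul ?_ continuous_const
    exact (continuous_expand (p := p) q hq).comp (continuous_apply i)
  have hEinj : Function.Injective E := fun c d h => by rw [← hcoE c, h, hcoE]
  have hco : Continuous co := by
    rw [(hEcont.isClosedEmbedding hEinj).isEmbedding.continuous_iff]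
    have : E ∘ co = id := funext hEco
    rw [this]; exact continuous_id
  have hcoadd : ∀ u v, co (u + v) = co u + co v := fun u v => b.equivFun.map_add u v
  have hEadd : ∀ c d, E (c + d) = E c + E d := fun c d => b.equivFun.symm.map_add c d
  have hcoX : ∀ u v : M, (v : R p) = (X : R p) ^ q * (u : R p) → co v = fun i => (X : R p) * co u i := by
    intro u v hv
    let u' : N := u
    let v' : N := v
    have h1 : v' = (X : R p) • u' := by
      apply Subtype.ext
      change (v : R p) = expand q hq X * (u : R p)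
      rw [expand_X, hv]
    have h2 : b.equivFun v' = (X : R p) • b.equivFun u' := by rw [h1, map_smul]
    exact h2
  let s : M → ℕ → ZMod p := fun u n => coeff (n / (m + 1)) (co u ⟨n % (m + 1), Nat.mod_lt n hm0⟩)
  have hs : ∀ u k (i : Fin (m + 1)), s u ((m + 1) * k + i) = coeff k (co u i) := by
    intro u k i
    have h1 : ((m + 1) * k + i) / (m + 1) = k := by
      rw [Nat.mul_add_div hm0, Nat.div_eq_of_lt i.2, add_zero]
    have h2 : (⟨((m + 1) * k + i) % (m + 1), Nat.mod_lt _ hm0⟩ : Fin (m + 1)) = i := by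
      ext; simp only [Nat.mul_add_mod, Nat.mod_eq_of_lt i.2]
    simp only [s, h1, h2]
  have hsinj : ∀ u v, (∀ n, s u n = s v n) → u = v := by
    intro u v h
    rw [← hEco u, ← hEco v]
    congr 1
    ext i k
    rw [← hs, ← hs, h]
  have hsadd : ∀ u v i, s (u + v) i = s u i + s v i := by
    intro u v i
    simp only [s, hcoadd, Pi.add_apply, map_add]
  have hscont : ∀ n, Continuous fun u => s u n := fun n =>
    (cont_coeff _).comp ((continuous_apply _).comp hco)
  have hsX : ∀ u v : M, (v : R p) = (X : R p) ^ q * (u : R p) → ∀ n,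
      s v n = if n < m + 1 then 0 else s u (n - (m + 1)) := by
    intro u v hv n
    have hn := Nat.div_add_mod n (m + 1)
    have h1 := hs v (n / (m + 1)) ⟨n % (m + 1), Nat.mod_lt n hm0⟩
    simp only [hn] at h1
    rw [h1, hcoX u v hv]
    split_ifs with h
    · rw [Nat.div_eq_of_lt h]; simp
    · obtain ⟨k, hk⟩ : ∃ k, n / (m + 1) = k + 1 :=
        Nat.exists_eq_succ_of_ne_zero (Nat.div_pos (by omega) hm0).ne'
      rw [hk, coeff_succ_X_mul, ← hs]
      congr 1
      rw [hk, Nat.mul_succ] at hn
      simp only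
      omega
  let Φ : M →+ M := AddMonoidHom.mk'
    (fun u => E fun i => PowerSeries.mk fun k => s u ((m + 1) * k + i + 1)) (by
      intro u v
      rw [← hEadd]
      congr 1
      ext i k
      simp [hsadd])
  have hΦ : ∀ u n, s (Φ u) n = s u (n + 1) := by
    intro u n
    have hn := Nat.div_add_mod n (m + 1)
    have h1 := hs (Φ u) (n / (m + 1)) ⟨n % (m + 1), Nat.mod_lt n hm0⟩
    simp only [hn] at h1
    rw [h1]
    simp only [Φ, AddMonoidHom.mk'_apply, hcoE, coeff_mk, hn]
  let lam : M →+ ZMod p := AddMonoidHom.mk' (fun u => s u 0) fun u v => hsadd u v 0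
  refine ⟨lam, Φ, hscont 0, ?_, ⟨E fun _ => 1, ?_⟩, ?_, ?_⟩
  · refine hEcont.comp (continuous_pi fun i => continuous_of_coeff fun k => ?_)
    simp only [coeff_mk]
    exact hscont _
  · change s (E fun _ => 1) 0 = 1
    simp [s, hcoE]
  · intro u v hv
    refine ⟨?_, fun hu => ?_⟩
    · change s v 0 = 0
      rw [hsX u v hv, if_pos hm0]
    · have hu' : s u 0 = 0 := hu
      have : Φ v = ⟨(X : R p) ^ q * (Φ u : R p), hy _ (Φ u).2⟩ := by
        apply hsinj
        intro n
        rw [hΦ, hsX u v hv, hsX (Φ u) ⟨(X : R p) ^ q * (Φ u : R p), hy _ (Φ u).2⟩ rfl, hΦ]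
        by_cases h1 : n + 1 < m + 1
        · rw [if_pos h1, if_pos (by omega)]
        · rw [if_neg h1]
          by_cases h2 : n < m + 1
          · rw [if_pos h2, show n + 1 - (m + 1) = 0 by omega, hu']
          · rw [if_neg h2]; congr 1; omega
      rw [this]
  · intro u hu
    apply hsinj
    intro n
    have h1 := iter_seq s Φ hΦ n u 0
    have h2 : s (Φ^[n] u) 0 = 0 := hu n
    rw [h2, zero_add] at h1
    have h3 := hsadd 0 0 n
    rw [add_zero] at h3
    rw [← h1]
    exact (left_eq_add.1 h3).symm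

end Pool.Agent.H748Z.Lamp
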