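import Mathlib
import Pool.Agent.H748Z.LampB

set_option autoImplicit false

open PowerSeries Filter Topology
open scoped PowerSeries.WithPiTopology

namespace Pool.Agent.H748Z.Lamp

variable {p : ℕ} [hp : Fact p.Prime]

open G

/-- the closed subgroup `L` has a virtual endomorphism of index `p` with trivial core -/
def SS (L : Subgroup (G p)) : Prop :=
  ∃ H : Subgroup (G p), H ≤ L ∧ IsClosed (H : Set (G p)) ∧ (H.subgroupOf L).index = p ∧
    ∃ f : H →* G p, Continuous f ∧ (∀ h : H, f h ∈ L) ∧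
      ∀ K : Subgroup (G p), ∀ hKH : K ≤ H,
        (∀ l ∈ L, ∀ k ∈ K, l * k * l⁻¹ ∈ K) →
        (∀ k : G p, ∀ hk : k ∈ K, f ⟨k, hKH hk⟩ ∈ K) → K = ⊥

lemma conj_mk (l : G p) (u : R p) : l * mk u 0 * l⁻¹ = mk (a l.c * u) 0 := by
  ext1
  · simp only [mul_b, mul_c, b_mk, c_mk, inv_b, add_zero]
    linear_combination (-l.b) * a_mul_neg l.c
  · simp

lemma mk_mul_mk (u v : R p) : mk u 0 * mk v 0 = mk (u + v) 0 := by ext1 <;> simp

theorem ss_of_data (L : Subgroup (G p)) (hL : IsClosed (L : Set (G p))) (M : AddSubgroup (R p))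
    (hM : ∀ u, u ∈ M ↔ mk u 0 ∈ L) (hne : M ≠ ⊥) (m : G p → R p) (hmc : Continuous m)
    (hmM : ∀ l ∈ L, m l ∈ M) (hcoc : ∀ l ∈ L, ∀ l' ∈ L, m (l * l') = m l + a l.c * m l')
    (hm0 : ∀ u ∈ M, m (mk u 0) = u) (lam : M →+ ZMod p) (Φ : M →+ M) (hlam : Continuous lam)
    (hΦ : Continuous Φ) (hsurj : ∃ u, lam u = 1)
    (hact : ∀ l ∈ L, ∀ u v : M, (v : R p) = a l.c * u →
      lam v = lam u ∧ (lam u = 0 → (Φ v : R p) = a l.c * Φ u))
    (hnil : ∀ u, (∀ n, lam (Φ^[n] u) = 0) → u = 0) : SS L := by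
  have hinv : ∀ l ∈ L, ∀ u ∈ M, a l.c * u ∈ M := by
    intro l hl u hu
    rw [hM, ← conj_mk]
    exact L.mul_mem (L.mul_mem hl ((hM u).1 hu)) (L.inv_mem hl)
  let μ : L → M := fun l => ⟨m l, hmM l l.2⟩
  have hμc : Continuous μ := (hmc.comp continuous_subtype_val).subtype_mk _
  have hμ : ∀ l l' : L, μ (l * l') = μ l + ⟨a (l : G p).c * m l', hinv l l.2 _ (hmM l' l'.2)⟩ :=
    fun l l' => Subtype.ext (hcoc l l.2 l' l'.2)
  let χ : L →* Multiplicative (ZMod p) :=
    MonoidHom.mk' (fun l => Multiplicative.ofAdd (lam (μ l))) (by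
      intro l l'
      rw [hμ, map_add, (hact l l.2 (μ l') ⟨a (l : G p).c * m l', hinv l l.2 _ (hmM l' l'.2)⟩ rfl).1, ofAdd_add])
  have hχ : Function.Surjective χ := by
    intro t
    obtain ⟨u, hu⟩ := hsurj
    obtain ⟨n, hn⟩ := ZMod.natCast_zmod_surjective (Multiplicative.toAdd t)
    refine ⟨⟨mk ((n • u : M) : R p) 0, (hM _).1 (n • u).2⟩, ?_⟩
    have : μ ⟨mk ((n • u : M) : R p) 0, (hM _).1 (n • u).2⟩ = n • u :=
      Subtype.ext (hm0 _ (n • u).2)
    change Multiplicative.ofAdd (lam (μ _)) = t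
    rw [this, map_nsmul, hu, nsmul_one, hn]
    rfl
  let H : Subgroup (G p) := χ.ker.map L.subtype
  have hHL : H ≤ L := Subgroup.map_subtype_le _
  have hH0 : ∀ g (hg : g ∈ H), lam (μ ⟨g, hHL hg⟩) = 0 := by
    rintro g ⟨l, hl, rfl⟩
    exact hl
  let f : H →* G p := MonoidHom.mk'
    (fun h => mk ((Φ (μ ⟨h, hHL h.2⟩) : R p) - m h + (h : G p).b) (h : G p).c) (by
      intro h h'
      ext1
      · have e1 := hμ ⟨h, hHL h.2⟩ ⟨h', hHL h'.2⟩
        have e2 := (hact h (hHL h.2) (μ ⟨h', hHL h'.2⟩)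
          ⟨a (h : G p).c * m h', hinv h (hHL h.2) _ (hmM h' (hHL h'.2))⟩ rfl).2 (hH0 h' h'.2)
        have e3 : μ ⟨((h * h' : H) : G p), hHL (h * h').2⟩ = _ := e1
        simp only [b_mk, mul_b, c_mk]
        rw [e3, map_add, AddSubgroup.coe_add, e2, Subgroup.coe_mul, hcoc _ (hHL h.2) _ (hHL h'.2),
          mul_b]
        ring
      · simp)
  have hf : ∀ h : H,
      f h = mk ((Φ (μ ⟨h, hHL h.2⟩) : R p) - m h + (h : G p).b) (h : G p).c := fun h => rfl
  refine ⟨H, hHL, ?_, ?_, f, ?_, ?_, ?_⟩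
  · have h1 : IsClosed {l : L | lam (μ l) = 0} := isClosed_eq (hlam.comp hμc) continuous_const
    exact hL.isClosedEmbedding_subtypeVal.isClosedMap _ h1
  · have : H.subgroupOf L = χ.ker :=
      Subgroup.comap_map_eq_self_of_injective L.subtype_injective _
    rw [this, Subgroup.index_ker, MonoidHom.range_eq_top.2 hχ, Subgroup.card_top]
    simp
  · change Continuous fun h : H =>
      mk ((Φ (μ ⟨h, hHL h.2⟩) : R p) - m h + (h : G p).b) (h : G p).c
    refine continuous_mk (Continuous.add (Continuous.sub ?_ (hmc.comp continuous_subtype_val))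
      (continuous_b.comp continuous_subtype_val)) (continuous_c.comp continuous_subtype_val)
    exact continuous_subtype_val.comp (hΦ.comp (hμc.comp (continuous_subtype_val.subtype_mk _)))
  · intro h
    have : f h = mk ((Φ (μ ⟨h, hHL h.2⟩) : R p) - m h) 0 * h := by
      rw [hf]; ext1 <;> simp
    rw [this]
    exact L.mul_mem ((hM _).1 (M.sub_mem (Φ _).2 (hmM _ (hHL h.2)))) (hHL h.2)
  · intro K hKH hnorm hfK
    have step1 : ∀ k ∈ K, k.c = 0 → k = 1 := by
      intro k hk hc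
      have hk' : k = mk k.b 0 := by ext1 <;> simp [hc]
      have hu : k.b ∈ M := by rw [hM, ← hk']; exact hHL (hKH hk)
      have hμ0 : ∀ (w : M) (hw : mk (w : R p) 0 ∈ L), μ ⟨mk (w : R p) 0, hw⟩ = w :=
        fun w _ => Subtype.ext (hm0 _ w.2)
      have hit : ∀ n, mk ((Φ^[n] ⟨k.b, hu⟩ : M) : R p) 0 ∈ K := by
        intro n
        induction n with
        | zero => rw [hk'] at hk; exact hk
        | succ n ih =>
          have := hfK _ ih
          rw [hf] at this
          simp only [hμ0, b_mk, c_mk, hm0 _ (Φ^[n] ⟨k.b, hu⟩ : M).2, sub_add_cancel] at this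
          rw [Function.iterate_succ_apply']
          exact this
      have h0 := hnil ⟨k.b, hu⟩ fun n => by
        have := hH0 _ (hKH (hit n))
        rwa [hμ0] at this
      have h1 : k.b = 0 := congrArg Subtype.val h0
      ext1
      · simpa using h1
      · simpa using hc
    rw [eq_bot_iff]
    intro k hk
    obtain ⟨⟨u, hu⟩, hu0⟩ := AddSubgroup.ne_bot_iff_exists_ne_zero.1 hne
    have hu0' : u ≠ 0 := fun h => hu0 (Subtype.ext h)
    have h1 := step1 _ (K.mul_mem (hnorm _ ((hM u).1 hu) k hk) (K.inv_mem hk)) (by simp)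
    have h2 := congrArg G.b h1
    simp only [mul_b, mul_c, b_mk, c_mk, inv_b, inv_c, a_zero, neg_zero, one_mul, zero_add,
      add_zero, one_b] at h2
    have h3 : (1 - a k.c) * u = 0 := by linear_combination h2 + k.b * a_mul_neg k.c
    have h4 : a k.c = 1 := by
      rcases mul_eq_zero.1 h3 with h | h
      · exact (sub_eq_zero.1 h).symm
      · exact absurd h hu0'
    exact step1 k hk (a_eq_one h4)

/-- the base part of a subgroup -/
def base (L : Subgroup (G p)) : AddSubgroup (R p) where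
  carrier := {u | mk u 0 ∈ L}
  add_mem' := fun {u v} hu hv => by
    change mk (u + v) 0 ∈ L
    rw [← mk_mul_mk]; exact L.mul_mem hu hv
  zero_mem' := L.one_mem
  neg_mem' := fun {u} hu => by
    change mk (-u) 0 ∈ L
    have : mk (-u) 0 = (mk u 0)⁻¹ := by ext1 <;> simp
    rw [this]; exact L.inv_mem hu

lemma mem_base {L : Subgroup (G p)} {u : R p} : u ∈ base L ↔ mk u 0 ∈ L := Iff.rfl

lemma isClosed_base {L : Subgroup (G p)} (hL : IsClosed (L : Set (G p))) :
    IsClosed (base L : Set (R p)) :=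
  hL.preimage (continuous_mk continuous_id continuous_const)

lemma base_inv {L : Subgroup (G p)} {l : G p} (hl : l ∈ L) {u : R p} (hu : u ∈ base L) :
    a l.c * u ∈ base L := by
  rw [mem_base, ← conj_mk]
  exact L.mul_mem (L.mul_mem hl hu) (L.inv_mem hl)

/-- case A: finite subgroups of the base -/
theorem ss_finite (L : Subgroup (G p)) (hfin : Finite L) (hc : ∀ l ∈ L, l.c = 0) (hne : L ≠ ⊥) :
    SS L := by
  have hL : IsClosed (L : Set (G p)) := (Set.toFinite (L : Set (G p))).isClosed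
  have heq : ∀ l ∈ L, l = mk l.b 0 := fun l hl => by ext1 <;> simp [hc l hl]
  have hb : ∀ l ∈ L, l.b ∈ base L := fun l hl => by rw [mem_base, ← heq l hl]; exact hl
  have hfin' : Finite (base L) :=
    Finite.of_injective (fun u : base L => (⟨mk u 0, u.2⟩ : L)) fun u v h =>
      Subtype.ext (congrArg (fun l : L => (l : G p).b) h)
  have hne' : base L ≠ ⊥ := by
    intro h
    apply hne
    rw [eq_bot_iff]
    intro l hl
    have := hb l hl
    rw [h, AddSubgroup.mem_bot] at this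
    rw [heq l hl, this]; rfl
  obtain ⟨lam, Φ, h1, h2, h3, -, h5⟩ := good_finite (base L) hfin' hne'
  refine ss_of_data L hL (base L) (fun u => mem_base) hne' G.b continuous_b hb
    (fun l _ l' _ => rfl) (fun u _ => rfl) lam Φ h1 h2 h3 ?_ h5
  intro l hl u v hv
  rw [hc l hl, a_zero, one_mul] at hv
  have : v = u := Subtype.ext hv
  subst this
  simp [hc l hl]

/-- division by `X ^ q` -/
noncomputable def sh (q : ℕ) (h : R p) : R p := PowerSeries.mk fun n => coeff (n + q) h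

lemma sh_mul (q : ℕ) (u : R p) : sh q (X ^ q * u) = u := by
  ext n; simp [sh, coeff_X_pow_mul]

lemma continuous_sh (q : ℕ) : Continuous (sh q : R p → R p) :=
  continuous_of_coeff fun n => by simp only [sh, coeff_mk]; exact cont_coeff _

lemma exists_gen (L : Subgroup (G p)) (hL : IsClosed (L : Set (G p))) (hc : ∃ l ∈ L, l.c ≠ 0) :
    ∃ k : ℕ, (∃ s ∈ L, s.c = (p : ℤ_[p]) ^ k) ∧ ∀ l ∈ L, (p : ℤ_[p]) ^ k ∣ l.c := by
  have hcl : IsClosed (G.c '' (L : Set (G p))) := (hL.isCompact.image continuous_c).isClosed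
  let I : Ideal ℤ_[p] :=
    { carrier := G.c '' (L : Set (G p))
      add_mem' := by
        rintro _ _ ⟨x, hx, rfl⟩ ⟨y, hy, rfl⟩
        exact ⟨x * y, L.mul_mem hx hy, rfl⟩
      zero_mem' := ⟨1, L.one_mem, rfl⟩
      smul_mem' := by
        rintro r _ ⟨x, hx, rfl⟩
        refine padic_ind (P := fun r => r • x.c ∈ G.c '' (L : Set (G p))) ?_ ?_ r
        · exact hcl.preimage (continuous_id.smul continuous_const)
        · intro n
          exact ⟨x ^ n, L.pow_mem hx n, by rw [pow_c, smul_eq_mul]⟩ }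
  have hI : I ≠ ⊥ := by
    obtain ⟨l, hl, h0⟩ := hc
    intro h
    have : l.c ∈ I := ⟨l, hl, rfl⟩
    rw [h] at this
    exact h0 this
  obtain ⟨k, hk⟩ := PadicInt.ideal_eq_span_pow_p hI
  refine ⟨k, ?_, fun l hl => ?_⟩
  · have : (p : ℤ_[p]) ^ k ∈ I := by rw [hk]; exact Ideal.mem_span_singleton_self _
    exact this
  · have : l.c ∈ I := ⟨l, hl, rfl⟩
    rwa [hk, Ideal.mem_span_singleton] at this

/-- the cocycle vanishing at `s` -/
noncomputable def D (k : ℕ) (s l : G p) : R p := X ^ (p ^ k) * l.b - (a l.c - 1) * s.b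

lemma D_mul (k : ℕ) (s l l' : G p) : D k s (l * l') = D k s l + a l.c * D k s l' := by
  simp only [D, mul_b, mul_c, a_add]; ring

lemma continuous_D (k : ℕ) (s : G p) : Continuous (D k s) :=
  (continuous_const.mul continuous_b).sub
    (((continuous_a.comp continuous_c).sub continuous_const).mul continuous_const)

lemma exists_sec (L : Subgroup (G p)) (hL : IsClosed (L : Set (G p))) {k : ℕ} {s : G p}
    (hs : s ∈ L) (hsc : s.c = (p : ℤ_[p]) ^ k) (j : ℤ_[p]) :
    ∃ σ ∈ L, D k s σ = 0 ∧ σ.c = (p : ℤ_[p]) ^ k * j := by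
  have hS : IsClosed {σ : G p | σ ∈ L ∧ D k s σ = 0} :=
    hL.inter (isClosed_eq (continuous_D k s) continuous_const)
  have hcl : IsClosed (G.c '' {σ : G p | σ ∈ L ∧ D k s σ = 0}) :=
    (hS.isCompact.image continuous_c).isClosed
  have hD : ∀ n : ℕ, D k s (s ^ n) = 0 := by
    intro n
    induction n with
    | zero => simp [D]
    | succ n ih =>
      rw [pow_succ, D_mul, ih, zero_add]
      have : D k s s = 0 := by simp only [D, hsc, a_pow]; ring
      rw [this, mul_zero]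
  have := padic_ind (P := fun j => (p : ℤ_[p]) ^ k * j ∈ G.c '' {σ : G p | σ ∈ L ∧ D k s σ = 0})
    (hcl.preimage (continuous_const.mul continuous_id))
    (fun n => ⟨s ^ n, ⟨L.pow_mem hs n, hD n⟩, by rw [pow_c, hsc, mul_comm]⟩) j
  obtain ⟨σ, ⟨h1, h2⟩, h3⟩ := this
  exact ⟨σ, h1, h2, h3⟩

lemma D_eq (L : Subgroup (G p)) (hL : IsClosed (L : Set (G p))) {k : ℕ} {s : G p}
    (hs : s ∈ L) (hsc : s.c = (p : ℤ_[p]) ^ k) (hd : ∀ l ∈ L, (p : ℤ_[p]) ^ k ∣ l.c)
    {l : G p} (hl : l ∈ L) : ∃ u ∈ base L, D k s l = X ^ (p ^ k) * u := by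
  obtain ⟨j, hj⟩ := hd l hl
  obtain ⟨σ, h1, h2, h3⟩ := exists_sec L hL hs hsc j
  have h4 : l * σ⁻¹ = mk (l * σ⁻¹).b 0 := by ext1 <;> simp [hj, h3]
  refine ⟨(l * σ⁻¹).b, ?_, ?_⟩
  · rw [mem_base, ← h4]; exact L.mul_mem hl (L.inv_mem h1)
  · have : l = mk (l * σ⁻¹).b 0 * σ := by rw [← h4]; simp
    conv_lhs => rw [this, D_mul, h2]
    simp [D]

/-- case C -/
theorem ss_mixed (L : Subgroup (G p)) (hL : IsClosed (L : Set (G p))) {k : ℕ} {s : G p}
    (hs : s ∈ L) (hsc : s.c = (p : ℤ_[p]) ^ k) (hd : ∀ l ∈ L, (p : ℤ_[p]) ^ k ∣ l.c)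
    (hne : base L ≠ ⊥) : SS L := by
  have hq : p ^ k ≠ 0 := pow_ne_zero _ hp.out.ne_zero
  have hy : ∀ u ∈ base L, X ^ (p ^ k) * u ∈ base L := by
    intro u hu
    have := (base L).sub_mem (base_inv hs hu) hu
    rw [hsc, a_pow] at this
    convert this using 1; ring
  obtain ⟨lam, Φ, h1, h2, h3, h4, h5⟩ := good_free (base L) (isClosed_base hL) _ hq hy hne
  have hDm : ∀ l ∈ L, D k s l = X ^ (p ^ k) * sh (p ^ k) (D k s l) := by
    intro l hl
    obtain ⟨u, -, hu⟩ := D_eq L hL hs hsc hd hl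
    rw [hu, sh_mul]
  refine ss_of_data L hL (base L) (fun u => mem_base) hne (fun l => sh (p ^ k) (D k s l))
    ((continuous_sh _).comp (continuous_D k s)) ?_ ?_ ?_ lam Φ h1 h2 h3 ?_ h5
  · intro l hl
    obtain ⟨u, hu1, hu⟩ := D_eq L hL hs hsc hd hl
    rw [hu, sh_mul]; exact hu1
  · intro l hl l' hl'
    have : D k s (l * l') = X ^ (p ^ k) * (sh (p ^ k) (D k s l) + a l.c * sh (p ^ k) (D k s l')) := by
      rw [D_mul]
      linear_combination hDm l hl + a l.c * hDm l' hl'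
    rw [this, sh_mul]
  · intro u _
    simp [D, sh_mul]
  · intro l hl u v hv
    obtain ⟨j, hj⟩ := hd l hl
    have hmem : ∀ j : ℤ_[p], a ((p : ℤ_[p]) ^ k * j) * u ∈ base L := by
      intro j
      obtain ⟨σ, h1, -, h3⟩ := exists_sec L hL hs hsc j
      rw [← h3]; exact base_inv h1 u.2
    let T : ℤ_[p] → base L := fun j => ⟨a ((p : ℤ_[p]) ^ k * j) * u, hmem j⟩
    have hTa : Continuous fun j : ℤ_[p] => a ((p : ℤ_[p]) ^ k * j) :=
      continuous_a.comp (continuous_const.mul continuous_id)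
    have hT : Continuous T := (hTa.mul continuous_const).subtype_mk _
    have hstep : ∀ n : ℕ, T ((n + 1 : ℕ) : ℤ_[p]) = T n + ⟨X ^ (p ^ k) * (T n : R p), hy _ (T n).2⟩ := by
      intro n
      apply Subtype.ext
      simp only [T, AddSubgroup.coe_add, Nat.cast_succ, mul_add, mul_one, a_add, a_pow]
      ring
    have hT0 : T ((0 : ℕ) : ℤ_[p]) = u := Subtype.ext (by simp [T])
    have hA : ∀ n : ℕ, lam (T n) = lam u := by
      intro n
      induction n with
      | zero => rw [hT0]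
      | succ n ih => rw [hstep, map_add, ih, (h4 (T n) ⟨X ^ (p ^ k) * (T n : R p), hy _ (T n).2⟩ rfl).1, add_zero]
    have hv' : v = T j := Subtype.ext (by rw [hv, hj])
    rw [hv', hj]
    refine ⟨padic_ind (P := fun j => lam (T j) = lam u)
      (isClosed_eq (h1.comp hT) continuous_const) hA j, fun hu => ?_⟩
    refine padic_ind (P := fun j => (Φ (T j) : R p) = a ((p : ℤ_[p]) ^ k * j) * Φ u)
      (isClosed_eq (continuous_subtype_val.comp (h2.comp hT)) (hTa.mul continuous_const)) ?_ j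
    intro n
    induction n with
    | zero => rw [hT0]; simp
    | succ n ih =>
      rw [hstep, map_add, AddSubgroup.coe_add, (h4 (T n) ⟨X ^ (p ^ k) * (T n : R p), hy _ (T n).2⟩ rfl).2 (by rw [hA, hu]), ih]
      simp only [Nat.cast_succ, mul_add, mul_one, a_add, a_pow]
      ring

end Pool.Agent.H748Z.Lamp
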