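import Mathlib
import Pool.Agent.H748Z.LampC

set_option autoImplicit false

open PowerSeries Filter Topology
open scoped PowerSeries.WithPiTopology

namespace Pool.Agent.H748Z.Lamp

variable {p : ℕ} [hp : Fact p.Prime]

open G

lemma eq_zero_of_dvd {x : ℤ_[p]} (h : ∀ n : ℕ, (p : ℤ_[p]) ^ n ∣ x) : x = 0 := by
  by_contra hx
  have h1 := h (x.valuation + 1)
  rw [← Ideal.mem_span_singleton, PadicInt.mem_span_pow_iff_le_valuation x hx] at h1
  omega

/-- case B -/
theorem ss_cyclic (L : Subgroup (G p)) (hL : IsClosed (L : Set (G p))) {k : ℕ} {s : G p}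
    (hs : s ∈ L) (hsc : s.c = (p : ℤ_[p]) ^ k) (hd : ∀ l ∈ L, (p : ℤ_[p]) ^ k ∣ l.c)
    (hb : base L = ⊥) : SS L := by
  have hp0 : (p : ℤ_[p]) ≠ 0 := Nat.cast_ne_zero.2 hp.out.ne_zero
  have hpk : (p : ℤ_[p]) ^ k ≠ 0 := pow_ne_zero _ hp0
  have hinj : ∀ l ∈ L, ∀ l' ∈ L, l.c = l'.c → l = l' := by
    intro l hl l' hl' h
    have h4 : l * l'⁻¹ = mk (l * l'⁻¹).b 0 := by ext1 <;> simp [h]
    have h5 : (l * l'⁻¹).b ∈ base L := by
      rw [mem_base, ← h4]; exact L.mul_mem hl (L.inv_mem hl')
    rw [hb, AddSubgroup.mem_bot] at h5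
    rw [h5] at h4
    exact mul_inv_eq_one.1 h4
  let t : ℤ_[p] → G p := fun j =>
    mk (sh (p ^ k) ((a ((p : ℤ_[p]) ^ k * j) - 1) * s.b)) ((p : ℤ_[p]) ^ k * j)
  have htc : ∀ j, (t j).c = (p : ℤ_[p]) ^ k * j := fun j => rfl
  have htL : ∀ j, t j ∈ L := by
    intro j
    obtain ⟨σ, h1, h2, h3⟩ := exists_sec L hL hs hsc j
    have : t j = σ := by
      ext1
      · have h4 : (a ((p : ℤ_[p]) ^ k * j) - 1) * s.b = X ^ (p ^ k) * σ.b := by
          rw [D, h3] at h2
          linear_combination -h2
        simp only [t, b_mk, h4, sh_mul]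
      · rw [htc, h3]
    rw [this]; exact h1
  have htcont : Continuous t :=
    continuous_mk ((continuous_sh _).comp
      (((continuous_a.comp (continuous_const.mul continuous_id)).sub continuous_const).mul
        continuous_const)) (continuous_const.mul continuous_id)
  let τ : Multiplicative ℤ_[p] →* G p := MonoidHom.mk' (fun j => t j.toAdd) (by
    intro i j
    apply hinj _ (htL _) _ (L.mul_mem (htL _) (htL _))
    simp only [mul_c, htc, toAdd_mul, mul_add])
  have hτc : ∀ j, (τ j).c = (p : ℤ_[p]) ^ k * j.toAdd := fun j => rfl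
  have hτcont : Continuous τ := htcont
  have hτinj : Function.Injective τ := by
    intro i j h
    have := congrArg G.c h
    rw [hτc, hτc] at this
    exact Multiplicative.toAdd.injective (mul_left_cancel₀ hpk this)
  have hτL : τ.range = L := by
    ext l
    constructor
    · rintro ⟨j, rfl⟩; exact htL _
    · intro hl
      obtain ⟨j, hj⟩ := hd l hl
      exact ⟨Multiplicative.ofAdd j, hinj _ (htL _) _ hl (by rw [htc, hj]; rfl)⟩
  let μ : Multiplicative ℤ_[p] →* Multiplicative ℤ_[p] :=
    MonoidHom.mk' (fun j => Multiplicative.ofAdd ((p : ℤ_[p]) * j.toAdd)) (by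
      intro i j
      rw [toAdd_mul, mul_add, ofAdd_add])
  have hμ : ∀ j, (μ j).toAdd = (p : ℤ_[p]) * j.toAdd := fun j => rfl
  have hμcont : Continuous μ := (continuous_const.mul continuous_id : Continuous fun j : ℤ_[p] =>
    (p : ℤ_[p]) * j)
  have hμinj : Function.Injective μ := by
    intro i j h
    have := congrArg Multiplicative.toAdd h
    rw [hμ, hμ] at this
    exact Multiplicative.toAdd.injective (mul_left_cancel₀ hp0 this)
  let ν := τ.comp μ
  have hνinj : Function.Injective ν := hτinj.comp hμinj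
  have hνcont : Continuous ν := hτcont.comp hμcont
  let e := MonoidHom.ofInjective hνinj
  have he : ∀ h : ν.range, ν (e.symm h) = h := fun h => MonoidHom.apply_ofInjective_symm hνinj h
  have hecont : Continuous e.symm := by
    rw [(hνcont.isClosedEmbedding hνinj).isEmbedding.continuous_iff]
    have : ν ∘ e.symm = Subtype.val := funext he
    rw [this]; exact continuous_subtype_val
  refine ⟨ν.range, ?_, ?_, ?_, τ.comp e.symm.toMonoidHom, hτcont.comp hecont, fun h => htL _, ?_⟩
  · rintro _ ⟨j, rfl⟩; exact htL _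
  · exact (isCompact_range hνcont).isClosed
  · have h1 : ν.range = μ.range.map τ := by rw [MonoidHom.map_range]
    have h2 : L = (⊤ : Subgroup (Multiplicative ℤ_[p])).map τ := by
      rw [← hτL, MonoidHom.range_eq_map]
    change ν.range.relIndex L = p
    rw [h1, h2, Subgroup.relIndex_map_map_of_injective _ _ hτinj, Subgroup.relIndex_top_right]
    let χ : Multiplicative ℤ_[p] →* Multiplicative (ZMod p) :=
      AddMonoidHom.toMultiplicative (PadicInt.toZMod (p := p)).toAddMonoidHom
    have h3 : μ.range = χ.ker := by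
      ext j
      rw [MonoidHom.mem_ker]
      change _ ↔ PadicInt.toZMod j.toAdd = 0
      rw [toZMod_eq_zero_iff]
      constructor
      · rintro ⟨i, rfl⟩; exact ⟨i.toAdd, rfl⟩
      · rintro ⟨i, hi⟩; exact ⟨Multiplicative.ofAdd i, hi.symm⟩
    have hχ : Function.Surjective χ := by
      intro x
      obtain ⟨n, hn⟩ := ZMod.natCast_zmod_surjective x.toAdd
      refine ⟨Multiplicative.ofAdd (n : ℤ_[p]), ?_⟩
      change Multiplicative.ofAdd (PadicInt.toZMod (n : ℤ_[p])) = x
      rw [map_natCast, hn]; rfl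
    rw [h3, Subgroup.index_ker, MonoidHom.range_eq_top.2 hχ, Subgroup.card_top]
    simp
  · intro K hKH _ hfK
    have key : ∀ n : ℕ, ∀ g ∈ K, (p : ℤ_[p]) ^ n ∣ g.c := by
      intro n
      induction n with
      | zero => intro g _; simp
      | succ n ih =>
        intro g hg
        have h1 := ih _ (hfK g hg)
        have h2 : g.c = p * (τ (e.symm ⟨g, hKH hg⟩)).c := by
          have h3 := congrArg G.c (he ⟨g, hKH hg⟩)
          change (τ (μ _)).c = g.c at h3
          rw [hτc, hμ] at h3
          rw [hτc, ← h3]; ring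
        rw [h2, pow_succ']
        exact mul_dvd_mul_left _ h1
    rw [eq_bot_iff]
    intro g hg
    have h0 : g.c = 0 := eq_zero_of_dvd fun n => key n g hg
    have hgL : g ∈ L := by
      obtain ⟨j, hj⟩ := hKH hg
      rw [← hj]; exact htL _
    exact hinj g hgL 1 L.one_mem (by simpa using h0)

lemma finite_closure (S : Finset (G p)) (hS : ∀ g ∈ S, g.c = 0) :
    Finite (Subgroup.closure (S : Set (G p))).topologicalClosure := by
  classical
  let W : Submodule (ZMod p) (R p) := Submodule.span (ZMod p) (S.image G.b : Finset (R p))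
  have hW : Finite W := Module.finite_of_finite (ZMod p)
  let T : Subgroup (G p) :=
    { carrier := {g | g.c = 0 ∧ g.b ∈ W}
      mul_mem' := fun {g h} hg hh => ⟨by simp [hg.1, hh.1], by
        simpa [hg.1] using W.add_mem hg.2 hh.2⟩
      one_mem' := ⟨rfl, W.zero_mem⟩
      inv_mem' := fun {g} hg => ⟨by simp [hg.1], by simpa [hg.1] using hg.2⟩ }
  have hT : Finite T := Finite.of_injective (fun g : T => (⟨(g : G p).b, g.2.2⟩ : W)) fun g h e =>
    Subtype.ext (G.ext (congrArg Subtype.val e) (g.2.1.trans h.2.1.symm))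
  have hle : (Subgroup.closure (S : Set (G p))).topologicalClosure ≤ T := by
    refine Subgroup.topologicalClosure_minimal _ ?_ (Set.toFinite (T : Set (G p))).isClosed
    rw [Subgroup.closure_le]
    intro g hg
    exact ⟨hS g hg, Submodule.subset_span (by simpa using ⟨g, hg, rfl⟩)⟩
  exact Finite.of_injective _ (Subgroup.inclusion_injective hle)

theorem ss_all (L : Subgroup (G p)) (hne : L ≠ ⊥)
    (hfg : ∃ S : Finset (G p), (Subgroup.closure (S : Set (G p))).topologicalClosure = L) :
    SS L := by
  obtain ⟨S, hS⟩ := hfg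
  have hL : IsClosed (L : Set (G p)) := hS ▸ Subgroup.isClosed_topologicalClosure _
  by_cases hc : ∃ l ∈ L, l.c ≠ 0
  · obtain ⟨k, ⟨s, hs, hsc⟩, hd⟩ := exists_gen L hL hc
    by_cases hb : base L = ⊥
    · exact ss_cyclic L hL hs hsc hd hb
    · exact ss_mixed L hL hs hsc hd hb
  · push Not at hc
    refine ss_finite L ?_ hc hne
    rw [← hS]
    refine finite_closure S fun g hg => hc g ?_
    rw [← hS]
    exact Subgroup.le_topologicalClosure _ (Subgroup.subset_closure hg)

theorem fg_top : ∃ S : Finset (G p), (Subgroup.closure (S : Set (G p))).topologicalClosure = ⊤ := by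
  classical
  refine ⟨{G.mk 1 0, G.mk 0 1}, ?_⟩
  set T := (Subgroup.closure (({G.mk 1 0, G.mk 0 1} : Finset (G p)) : Set (G p))).topologicalClosure
  have hT : IsClosed (T : Set (G p)) := Subgroup.isClosed_topologicalClosure _
  have h1 : G.mk 1 0 ∈ T := Subgroup.le_topologicalClosure _ (Subgroup.subset_closure (by simp))
  have h2 : G.mk 0 1 ∈ T := Subgroup.le_topologicalClosure _ (Subgroup.subset_closure (by simp))
  have h3 : ∀ c : ℤ_[p], G.mk 0 c ∈ T := by
    refine padic_ind (hT.preimage (continuous_mk continuous_const continuous_id)) fun n => ?_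
    have : G.mk 0 (n : ℤ_[p]) = (G.mk 0 1 : G p) ^ n := by
      ext1
      · simp [pow_b]
      · simp [pow_c]
    rw [this]; exact T.pow_mem h2 n
  have hy : ∀ u ∈ base T, X ^ 1 * u ∈ base T := by
    intro u hu
    have := (base T).sub_mem (base_inv h2 hu) hu
    have e : a (1 : ℤ_[p]) = 1 + X := by simpa using a_nat (p := p) 1
    rw [c_mk, e] at this
    convert this using 1; ring
  rw [eq_top_iff]
  intro g _
  have h4 := expand_mul_mem (base T) (isClosed_base hT) 1 one_ne_zero hy g.b h1
  rw [expand_one_apply, mul_one, mem_base] at h4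
  have : g = G.mk g.b 0 * G.mk 0 g.c := by ext1 <;> simp
  rw [this]; exact T.mul_mem h4 (h3 _)

theorem not_rank : ¬ ∃ r : ℕ, ∀ L : Subgroup (G p), IsClosed (L : Set (G p)) →
    ∃ S : Finset (G p), S.card ≤ r ∧
      (Subgroup.closure (S : Set (G p))).topologicalClosure = L := by
  rintro ⟨r, hr⟩
  let L : Subgroup (G p) :=
    { carrier := {g | g.c = 0}
      mul_mem' := fun {g h} hg hh => by
        simp only [Set.mem_setOf_eq] at hg hh ⊢; simp [hg, hh]
      one_mem' := rfl
      inv_mem' := fun {g} hg => by simp only [Set.mem_setOf_eq] at hg ⊢; simp [hg] }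
  obtain ⟨S, -, hS⟩ := hr L (isClosed_eq continuous_c continuous_const)
  have hfin := finite_closure S fun g hg => by
    have : g ∈ L := hS ▸ Subgroup.le_topologicalClosure _ (Subgroup.subset_closure hg)
    exact this
  rw [hS] at hfin
  have hinf : Infinite L := Infinite.of_injective (fun n : ℕ => (⟨mk (X ^ n) 0, rfl⟩ : L))
    fun n m h => by
      have h1 : (X : R p) ^ n = X ^ m := congrArg (fun l : L => (l : G p).b) h
      have h2 := congrArg (coeff n) h1
      by_contra hne
      simp [coeff_X_pow, hne] at h2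
  exact not_finite L

end Pool.Agent.H748Z.Lamp
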