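import Mathlib

set_option autoImplicit false

open Matrix

namespace Pool.Agent.H748Z.SO3

/-- The rotation group `SO(3, ℝ)`: real orthogonal `3 × 3` matrices of determinant one, with the
subspace topology of the space of matrices. -/
abbrev SO3 : Type := Matrix.specialOrthogonalGroup (Fin 3) ℝ

/-- The cap `C(u, θ)`: rotations `g` with `arccos (u · g u) < θ`. -/
def cap (u : Fin 3 → ℝ) (θ : ℝ) : Set SO3 :=
  {g | Real.arccos (u ⬝ᵥ (g.1 *ᵥ u)) < θ}

end Pool.Agent.H748Z.SO3
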