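import Mathlib
import Pool.Agent.H748Z.SO3Defs

set_option autoImplicit false

open Matrix Set
open scoped Pointwise

namespace Pool.Agent.H748Z.SO3

lemma tr_mul (g : SO3) : g.1ᵀ * g.1 = 1 := by
  have h := (Matrix.mem_specialOrthogonalGroup_iff.1 g.2).1
  exact (Matrix.mem_orthogonalGroup_iff' (Fin 3) ℝ).1 h

lemma mul_tr (g : SO3) : g.1 * g.1ᵀ = 1 := by
  have h := (Matrix.mem_specialOrthogonalGroup_iff.1 g.2).1
  exact (Matrix.mem_orthogonalGroup_iff (Fin 3) ℝ).1 h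

lemma det_one (g : SO3) : g.1.det = 1 := (Matrix.mem_specialOrthogonalGroup_iff.1 g.2).2

lemma coe_mul' (g h : SO3) : (g * h).1 = g.1 * h.1 := rfl

lemma coe_one' : (1 : SO3).1 = 1 := rfl

lemma dot_rot (g : SO3) (x y : Fin 3 → ℝ) : (g.1 *ᵥ x) ⬝ᵥ (g.1 *ᵥ y) = x ⬝ᵥ y := by
  rw [Matrix.dotProduct_mulVec, Matrix.vecMul_mulVec, tr_mul, Matrix.vecMul_one]

lemma inv_mulVec (g : SO3) (x : Fin 3 → ℝ) : (g⁻¹).1 *ᵥ (g.1 *ᵥ x) = x := by
  rw [Matrix.mulVec_mulVec, ← coe_mul', inv_mul_cancel, coe_one', Matrix.one_mulVec]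

lemma mulVec_inv (g : SO3) (x : Fin 3 → ℝ) : g.1 *ᵥ ((g⁻¹).1 *ᵥ x) = x := by
  rw [Matrix.mulVec_mulVec, ← coe_mul', mul_inv_cancel, coe_one', Matrix.one_mulVec]

lemma dot_inv (g : SO3) (x y : Fin 3 → ℝ) : x ⬝ᵥ (g.1 *ᵥ y) = ((g⁻¹).1 *ᵥ x) ⬝ᵥ y := by
  rw [← dot_rot g ((g⁻¹).1 *ᵥ x) y, mulVec_inv]

/-- rotation by `π` about the unit vector `n` -/
def halfTurn (n : Fin 3 → ℝ) (hn : n ⬝ᵥ n = 1) : SO3 :=
  ⟨!![2 * n 0 * n 0 - 1, 2 * n 0 * n 1, 2 * n 0 * n 2;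
      2 * n 1 * n 0, 2 * n 1 * n 1 - 1, 2 * n 1 * n 2;
      2 * n 2 * n 0, 2 * n 2 * n 1, 2 * n 2 * n 2 - 1], by
    have h : n 0 * n 0 + n 1 * n 1 + n 2 * n 2 = 1 := by
      simpa [dotProduct, Fin.sum_univ_three] using hn
    rw [Matrix.mem_specialOrthogonalGroup_iff, Matrix.mem_orthogonalGroup_iff]
    constructor
    · ext i j
      fin_cases i <;> fin_cases j <;>
        simp [Matrix.mul_apply, Fin.sum_univ_three]
      · linear_combination (4 * n 0 * n 0) * h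
      · linear_combination (4 * n 0 * n 1) * h
      · linear_combination (4 * n 0 * n 2) * h
      · linear_combination (4 * n 1 * n 0) * h
      · linear_combination (4 * n 1 * n 1) * h
      · linear_combination (4 * n 1 * n 2) * h
      · linear_combination (4 * n 2 * n 0) * h
      · linear_combination (4 * n 2 * n 1) * h
      · linear_combination (4 * n 2 * n 2) * h
    · rw [Matrix.det_fin_three]
      simp
      linear_combination 2 * h⟩

lemma halfTurn_mulVec (n : Fin 3 → ℝ) (hn : n ⬝ᵥ n = 1) (x : Fin 3 → ℝ) :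
    (halfTurn n hn).1 *ᵥ x = (2 * (n ⬝ᵥ x)) • n - x := by
  ext i
  fin_cases i <;>
    simp [halfTurn, Matrix.mulVec, dotProduct, Fin.sum_univ_three] <;> ring

lemma dot_self_nonneg (x : Fin 3 → ℝ) : 0 ≤ x ⬝ᵥ x := by
  simp only [dotProduct, Fin.sum_univ_three]
  nlinarith [mul_self_nonneg (x 0), mul_self_nonneg (x 1), mul_self_nonneg (x 2)]

lemma dot_self_pos {x : Fin 3 → ℝ} (hx : x ≠ 0) : 0 < x ⬝ᵥ x := by
  rcases (dot_self_nonneg x).lt_or_eq with h | h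
  · exact h
  · exact absurd (dotProduct_self_eq_zero.1 h.symm) hx

lemma unit_normalize {x : Fin 3 → ℝ} (hx : 0 < x ⬝ᵥ x) :
    ((Real.sqrt (x ⬝ᵥ x))⁻¹ • x) ⬝ᵥ ((Real.sqrt (x ⬝ᵥ x))⁻¹ • x) = 1 := by
  have hs : 0 < Real.sqrt (x ⬝ᵥ x) := Real.sqrt_pos.2 hx
  have h2 : Real.sqrt (x ⬝ᵥ x) * Real.sqrt (x ⬝ᵥ x) = x ⬝ᵥ x := Real.mul_self_sqrt hx.le
  rw [smul_dotProduct, dotProduct_smul, smul_eq_mul, smul_eq_mul]
  field_simp
  nlinarith

lemma exists_perp (x : Fin 3 → ℝ) : ∃ n : Fin 3 → ℝ, n ⬝ᵥ n = 1 ∧ n ⬝ᵥ x = 0 := by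
  by_cases h : (![x 1, -x 0, 0] : Fin 3 → ℝ) = 0
  · refine ⟨![1, 0, 0], by simp [dotProduct, Fin.sum_univ_three], ?_⟩
    have h1 := congrFun h 1
    simp at h1
    simp [dotProduct, Fin.sum_univ_three, h1]
  · refine ⟨_, unit_normalize (dot_self_pos h), ?_⟩
    rw [smul_dotProduct]
    have : (![x 1, -x 0, 0] : Fin 3 → ℝ) ⬝ᵥ x = 0 := by
      simp [dotProduct, Fin.sum_univ_three]; ring
    rw [this, smul_zero]

/-- transitivity on the unit sphere -/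
lemma exists_rot {x y : Fin 3 → ℝ} (hx : x ⬝ᵥ x = 1) (hy : y ⬝ᵥ y = 1) :
    ∃ h : SO3, h.1 *ᵥ x = y := by
  by_cases hxy : x + y = 0
  · obtain ⟨n, hn, hnx⟩ := exists_perp x
    refine ⟨halfTurn n hn, ?_⟩
    rw [halfTurn_mulVec, hnx]
    have : y = -x := by rw [eq_neg_iff_add_eq_zero, add_comm]; exact hxy
    rw [this]; simp
  · have hp := dot_self_pos hxy
    refine ⟨halfTurn _ (unit_normalize hp), ?_⟩
    rw [halfTurn_mulVec]
    set s := Real.sqrt ((x + y) ⬝ᵥ (x + y)) with hs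
    have hs0 : 0 < s := Real.sqrt_pos.2 hp
    have h2 : s * s = (x + y) ⬝ᵥ (x + y) := Real.mul_self_sqrt hp.le
    have h3 : (x + y) ⬝ᵥ (x + y) = 2 * ((x + y) ⬝ᵥ x) := by
      simp only [add_dotProduct, dotProduct_add, hx, hy, dotProduct_comm y x]; ring
    rw [smul_dotProduct, smul_smul, smul_eq_mul]
    have : 2 * (s⁻¹ * ((x + y) ⬝ᵥ x)) * s⁻¹ = 1 := by
      field_simp
      nlinarith
    rw [this, one_smul]; abel

lemma cs (w u : Fin 3 → ℝ) : (w ⬝ᵥ u) ^ 2 ≤ (w ⬝ᵥ w) * (u ⬝ᵥ u) := by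
  simp only [dotProduct, Fin.sum_univ_three]
  nlinarith [sq_nonneg (w 0 * u 1 - w 1 * u 0), sq_nonneg (w 0 * u 2 - w 2 * u 0),
    sq_nonneg (w 1 * u 2 - w 2 * u 1)]

/-- superlevel sets of a matrix coefficient -/
def lev (x u : Fin 3 → ℝ) (c : ℝ) : Set SO3 := {g | c < x ⬝ᵥ (g.1 *ᵥ u)}

lemma continuous_coef (x u : Fin 3 → ℝ) : Continuous fun g : SO3 => x ⬝ᵥ (g.1 *ᵥ u) := by
  have h : Continuous fun g : SO3 => g.1 := continuous_subtype_val
  exact Continuous.dotProduct continuous_const (h.matrix_mulVec continuous_const)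

lemma isOpen_lev (x u : Fin 3 → ℝ) (c : ℝ) : IsOpen (lev x u c) :=
  isOpen_lt continuous_const (continuous_coef x u)

lemma isOpen_cap (u : Fin 3 → ℝ) (θ : ℝ) : IsOpen (cap u θ) :=
  isOpen_lt (Real.continuous_arccos.comp (continuous_coef u u)) continuous_const

lemma lev_mul_lev {u : Fin 3 → ℝ} (hu : u ⬝ᵥ u = 1) {c : ℝ} (hc : 0 < c) :
    lev (-u) u c * lev (-u) u c = lev u u (2 * c ^ 2 - 1) := by
  ext g
  constructor
  · rintro ⟨a, ha, b, hb, rfl⟩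
    simp only [lev, mem_setOf_eq] at ha hb ⊢
    rw [coe_mul', ← Matrix.mulVec_mulVec, dot_inv]
    rw [dot_inv, Matrix.mulVec_neg] at ha
    set p := (a⁻¹).1 *ᵥ u with hp
    set q := b.1 *ᵥ u with hq
    have hpp : p ⬝ᵥ p = 1 := by rw [hp, dot_rot, hu]
    have hqq : q ⬝ᵥ q = 1 := by rw [hq, dot_rot, hu]
    have h := cs (p + q) u
    simp only [add_dotProduct, dotProduct_add, hpp, hqq, hu, dotProduct_comm q p] at h
    rw [neg_dotProduct] at ha hb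
    rw [dotProduct_comm u q] at hb
    nlinarith
  · intro hg
    simp only [lev, mem_setOf_eq] at hg
    rw [dot_inv] at hg
    set p := (g⁻¹).1 *ᵥ u with hp
    have hpp : p ⬝ᵥ p = 1 := by rw [hp, dot_rot, hu]
    have hw : (-(u + p)) ⬝ᵥ (-(u + p)) = 2 + 2 * (p ⬝ᵥ u) := by
      simp only [neg_dotProduct, dotProduct_neg, add_dotProduct, dotProduct_add, hpp, hu,
        dotProduct_comm u p]; ring
    have hw0 : 0 < (-(u + p)) ⬝ᵥ (-(u + p)) := by rw [hw]; nlinarith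
    obtain ⟨h, hh⟩ := exists_rot hu (unit_normalize hw0)
    set s := Real.sqrt ((-(u + p)) ⬝ᵥ (-(u + p))) with hs
    have hs0 : 0 < s := Real.sqrt_pos.2 hw0
    have h2 : s * s = 2 + 2 * (p ⬝ᵥ u) := by rw [← hw]; exact Real.mul_self_sqrt hw0.le
    have hsc : 2 * c < s := by
      by_contra hcon
      push Not at hcon
      nlinarith
    have key : c < s⁻¹ * (1 + p ⬝ᵥ u) := by
      have : s⁻¹ * (1 + p ⬝ᵥ u) = s / 2 := by
        field_simp
        nlinarith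
      rw [this]; linarith
    refine ⟨g * h, ?_, h⁻¹, ?_, by simp⟩
    · simp only [lev, mem_setOf_eq]
      rw [coe_mul', ← Matrix.mulVec_mulVec, dot_inv, Matrix.mulVec_neg, ← hp, hh,
        dotProduct_smul, smul_eq_mul]
      simp only [neg_dotProduct, dotProduct_neg, dotProduct_add, hpp, neg_neg]
      linarith
    · simp only [lev, mem_setOf_eq]
      rw [dot_inv, inv_inv, Matrix.mulVec_neg, hh, neg_dotProduct, smul_dotProduct, smul_eq_mul]
      simp only [neg_dotProduct, add_dotProduct, hu]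
      linarith

end Pool.Agent.H748Z.SO3
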