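import Mathlib
import Pool.Agent.H748Z.SO3Alg

set_option autoImplicit false

open Matrix Set MeasureTheory
open scoped Pointwise

namespace Pool.Agent.H748Z.SO3

lemma vol_disc (r : ℝ) :
    volume {y : Fin 2 → ℝ | y 0 ^ 2 + y 1 ^ 2 < r} = ENNReal.ofReal (Real.pi * r) := by
  rcases le_or_gt r 0 with hr | hr
  · have : {y : Fin 2 → ℝ | y 0 ^ 2 + y 1 ^ 2 < r} = ∅ := by
      ext y
      simp only [mem_setOf_eq, mem_empty_iff_false, iff_false, not_lt]
      nlinarith [sq_nonneg (y 0), sq_nonneg (y 1)]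
    rw [this, measure_empty, ENNReal.ofReal_of_nonpos]
    exact mul_nonpos_of_nonneg_of_nonpos Real.pi_pos.le hr
  · have h1 := Complex.volume_preserving_equiv_pi.measure_preimage
      (s := {y : Fin 2 → ℝ | y 0 ^ 2 + y 1 ^ 2 < r})
      (MeasurableSet.nullMeasurableSet (measurableSet_lt (by fun_prop) measurable_const))
    rw [← h1]
    have h2 : Complex.measurableEquivPi ⁻¹' {y : Fin 2 → ℝ | y 0 ^ 2 + y 1 ^ 2 < r}
        = Metric.ball (0 : ℂ) (Real.sqrt r) := by
      ext z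
      simp only [mem_preimage, mem_setOf_eq, Complex.measurableEquivPi_apply, Metric.mem_ball,
        dist_zero_right, Matrix.cons_val_zero, Matrix.cons_val_one]
      rw [Real.lt_sqrt (norm_nonneg z), Complex.sq_norm, Complex.normSq_apply]
      simp [sq]
    rw [h2, Complex.volume_ball, ← ENNReal.ofReal_pow (Real.sqrt_nonneg r), Real.sq_sqrt hr.le,
      mul_comm Real.pi r, ENNReal.ofReal_mul hr.le]
    congr 1
    rw [← NNReal.coe_real_pi, ENNReal.ofReal_coe_nnreal]

lemma vol_slices (ρ : ℝ → ℝ) (hρ : Measurable ρ) :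
    volume {x : Fin 3 → ℝ | x 1 ^ 2 + x 2 ^ 2 < ρ (x 0)}
      = ∫⁻ t, ENNReal.ofReal (Real.pi * ρ t) := by
  have hm : MeasurableSet {p : ℝ × (Fin 2 → ℝ) | p.2 0 ^ 2 + p.2 1 ^ 2 < ρ p.1} :=
    measurableSet_lt (by fun_prop) (hρ.comp measurable_fst)
  have h1 := (volume_preserving_piFinSuccAbove (fun _ : Fin 3 => ℝ) 0).measure_preimage
    hm.nullMeasurableSet
  have h2 : (MeasurableEquiv.piFinSuccAbove (fun _ : Fin 3 => ℝ) 0) ⁻¹'
      {p : ℝ × (Fin 2 → ℝ) | p.2 0 ^ 2 + p.2 1 ^ 2 < ρ p.1}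
      = {x : Fin 3 → ℝ | x 1 ^ 2 + x 2 ^ 2 < ρ (x 0)} := by
    ext x
    simp [MeasurableEquiv.piFinSuccAbove, Fin.removeNth, Fin.tail]
  rw [← h2, h1, Measure.volume_eq_prod, Measure.prod_apply hm]
  congr 1
  ext t
  exact vol_disc (ρ t)

lemma lint_Ioc (f : ℝ → ℝ) (hf : Continuous f) {a b : ℝ} (hab : a ≤ b)
    (h0 : ∀ t ∈ Ioc a b, 0 ≤ f t) :
    ∫⁻ t in Ioc a b, ENNReal.ofReal (f t) = ENNReal.ofReal (∫ t in a..b, f t) := by
  rw [intervalIntegral.integral_of_le hab, ofReal_integral_eq_lintegral_ofReal]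
  · exact (hf.intervalIntegrable a b).1
  · exact (ae_restrict_iff' measurableSet_Ioc).2 (Filter.Eventually.of_forall h0)

lemma vol_ball : volume {x : Fin 3 → ℝ | x ⬝ᵥ x < 1} = ENNReal.ofReal (4 * Real.pi / 3) := by
  have h1 : {x : Fin 3 → ℝ | x ⬝ᵥ x < 1}
      = {x : Fin 3 → ℝ | x 1 ^ 2 + x 2 ^ 2 < (fun t : ℝ => 1 - t ^ 2) (x 0)} := by
    ext x
    simp only [mem_setOf_eq, dotProduct, Fin.sum_univ_three]
    constructor <;> intro h <;> nlinarith
  rw [h1, vol_slices (fun t : ℝ => 1 - t ^ 2) (by fun_prop)]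
  have h2 : (fun t : ℝ => ENNReal.ofReal (Real.pi * (1 - t ^ 2)))
      = (Ioc (-1 : ℝ) 1).indicator fun t => ENNReal.ofReal (Real.pi * (1 - t ^ 2)) := by
    ext t
    by_cases ht : t ∈ Ioc (-1 : ℝ) 1
    · rw [indicator_of_mem ht]
    · rw [indicator_of_notMem ht, ENNReal.ofReal_of_nonpos]
      apply mul_nonpos_of_nonneg_of_nonpos Real.pi_pos.le
      rw [mem_Ioc, not_and_or, not_lt, not_le] at ht
      rcases ht with ht | ht <;> nlinarith
  rw [h2, lintegral_indicator measurableSet_Ioc, lint_Ioc _ (by fun_prop) (by norm_num)]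
  · congr 1
    rw [intervalIntegral.integral_const_mul, intervalIntegral.integral_sub (by simp) (by simp)]
    simp [integral_pow]
    ring
  · intro t ht
    apply mul_nonneg Real.pi_pos.le
    nlinarith [ht.1, ht.2]

/-- spherical sector around the first axis -/
lemma vol_sector {c : ℝ} (hc0 : 0 < c) (hc1 : c < 1) :
    volume {x : Fin 3 → ℝ | x ⬝ᵥ x < 1 ∧ c * Real.sqrt (x ⬝ᵥ x) < x 0}
      = ENNReal.ofReal (2 * Real.pi / 3 * (1 - c)) := by
  set k : ℝ := (1 - c ^ 2) / c ^ 2 with hk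
  have hc2 : 0 < c ^ 2 := by positivity
  have hkc : k * c ^ 2 = 1 - c ^ 2 := by rw [hk]; field_simp
  have hk0 : 0 < k := by rw [hk]; apply div_pos _ hc2; nlinarith
  set ρ : ℝ → ℝ := fun t => if t ≤ 0 then 0 else if t ≤ c then k * t ^ 2 else 1 - t ^ 2 with hρ
  have hρm : Measurable ρ := by
    refine Measurable.ite measurableSet_Iic measurable_const ?_
    exact Measurable.ite measurableSet_Iic (by fun_prop) (by fun_prop)
  have h1 : {x : Fin 3 → ℝ | x ⬝ᵥ x < 1 ∧ c * Real.sqrt (x ⬝ᵥ x) < x 0}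
      = {x : Fin 3 → ℝ | x 1 ^ 2 + x 2 ^ 2 < ρ (x 0)} := by
    ext x
    have hxx : x ⬝ᵥ x = x 0 ^ 2 + (x 1 ^ 2 + x 2 ^ 2) := by
      simp only [dotProduct, Fin.sum_univ_three]; ring
    have hq : 0 ≤ x 1 ^ 2 + x 2 ^ 2 := by positivity
    simp only [mem_setOf_eq, hρ]
    rw [hxx]
    generalize x 1 ^ 2 + x 2 ^ 2 = q at hq
    generalize x 0 = t
    have hs := Real.sqrt_nonneg (t ^ 2 + q)
    have hss : Real.sqrt (t ^ 2 + q) ^ 2 = t ^ 2 + q := Real.sq_sqrt (by positivity)
    generalize Real.sqrt (t ^ 2 + q) = s at hs hss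
    have hcs : 0 ≤ c * s := by positivity
    constructor
    · rintro ⟨ha, hb⟩
      have ht : 0 < t := lt_of_le_of_lt hcs hb
      have hb2 : (c * s) ^ 2 < t ^ 2 := by nlinarith
      rw [if_neg (not_le.2 ht)]
      split_ifs with h
      · have : c ^ 2 * q < c ^ 2 * (k * t ^ 2) := by
          have e : c ^ 2 * (k * t ^ 2) = (1 - c ^ 2) * t ^ 2 := by rw [← hkc]; ring
          rw [e]; nlinarith
        exact lt_of_mul_lt_mul_left this hc2.le
      · linarith
    · intro h
      split_ifs at h with h0 h2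
      · exact absurd h (not_lt.2 hq)
      · have ht : 0 < t := not_le.1 h0
        have e : c ^ 2 * q < (1 - c ^ 2) * t ^ 2 := by
          have : c ^ 2 * q < c ^ 2 * (k * t ^ 2) := mul_lt_mul_of_pos_left h hc2
          have e : c ^ 2 * (k * t ^ 2) = (1 - c ^ 2) * t ^ 2 := by rw [← hkc]; ring
          linarith
        have ht2 : t ^ 2 ≤ c ^ 2 := by nlinarith
        constructor
        · have : k * t ^ 2 ≤ k * c ^ 2 := mul_le_mul_of_nonneg_left ht2 hk0.le
          have h3 : c ^ 2 * (t ^ 2 + q) < c ^ 2 * 1 := by nlinarith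
          exact lt_of_mul_lt_mul_left h3 hc2.le
        · apply lt_of_pow_lt_pow_left₀ 2 ht.le
          nlinarith
      · have ht : c < t := not_le.1 h2
        refine ⟨by linarith, ?_⟩
        have hs1 : s < 1 := by
          apply lt_of_pow_lt_pow_left₀ 2 zero_le_one
          nlinarith
        nlinarith
  rw [h1, vol_slices _ hρm]
  have h2 : (fun t : ℝ => ENNReal.ofReal (Real.pi * ρ t))
      = fun t => ((Ioc (0 : ℝ) c).indicator (fun t => ENNReal.ofReal (Real.pi * (k * t ^ 2))) t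
        + (Ioc c 1).indicator (fun t => ENNReal.ofReal (Real.pi * (1 - t ^ 2))) t) := by
    ext t
    simp only [hρ]
    by_cases h0 : t ≤ 0
    · rw [if_pos h0, indicator_of_notMem (fun h => absurd h.1 (not_lt.2 h0)),
        indicator_of_notMem (fun h => absurd h.1 (not_lt.2 (h0.trans hc0.le)))]
      simp
    · rw [if_neg h0]
      by_cases h1 : t ≤ c
      · rw [if_pos h1, indicator_of_mem (show t ∈ Ioc 0 c from ⟨not_le.1 h0, h1⟩),
          indicator_of_notMem (fun h => absurd h.1 (not_lt.2 h1))]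
        simp
      · rw [if_neg h1, indicator_of_notMem (fun h => h1 h.2), zero_add]
        by_cases h2 : t ≤ 1
        · rw [indicator_of_mem (show t ∈ Ioc c 1 from ⟨not_le.1 h1, h2⟩)]
        · rw [indicator_of_notMem (fun h => h2 h.2), ENNReal.ofReal_of_nonpos]
          apply mul_nonpos_of_nonneg_of_nonpos Real.pi_pos.le
          have := not_le.1 h2
          nlinarith
  rw [h2, lintegral_add_left, lintegral_indicator measurableSet_Ioc,
    lintegral_indicator measurableSet_Ioc, lint_Ioc _ (by fun_prop) hc0.le,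
    lint_Ioc _ (by fun_prop) hc1.le]
  · have e1 : ∫ t in (0 : ℝ)..c, Real.pi * (k * t ^ 2) = Real.pi * (k * (c ^ 3 / 3)) := by
      rw [intervalIntegral.integral_const_mul, intervalIntegral.integral_const_mul, integral_pow]
      norm_num
    have e2 : ∫ t in c..1, Real.pi * (1 - t ^ 2) = Real.pi * ((1 - c) - (1 - c ^ 3) / 3) := by
      rw [intervalIntegral.integral_const_mul, intervalIntegral.integral_sub (by simp) (by simp),
        integral_pow]
      norm_num
    rw [e1, e2, ← ENNReal.ofReal_add]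
    · congr 1
      have : k * (c ^ 3 / 3) = (1 - c ^ 2) * c / 3 := by rw [← hkc]; ring
      rw [this]; ring
    · positivity
    · apply mul_nonneg Real.pi_pos.le
      have : 0 ≤ (1 - c) ^ 2 * (c + 2) := by positivity
      nlinarith
  · intro t ht
    apply mul_nonneg Real.pi_pos.le
    nlinarith [ht.1, ht.2]
  · intro t _
    positivity
  · exact Measurable.indicator (by fun_prop) measurableSet_Ioc

/-- rotation invariance: the sector around any unit vector -/
lemma vol_sector' {c : ℝ} (hc0 : 0 < c) (hc1 : c < 1) {v : Fin 3 → ℝ} (hv : v ⬝ᵥ v = 1) :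
    volume {x : Fin 3 → ℝ | x ⬝ᵥ x < 1 ∧ c * Real.sqrt (x ⬝ᵥ x) < x ⬝ᵥ v}
      = ENNReal.ofReal (2 * Real.pi / 3 * (1 - c)) := by
  have he : (![1, 0, 0] : Fin 3 → ℝ) ⬝ᵥ ![1, 0, 0] = 1 := by simp [dotProduct, Fin.sum_univ_three]
  obtain ⟨h, hh⟩ := exists_rot he hv
  have hdet : LinearMap.det (Matrix.toLin' h.1) = 1 := by rw [LinearMap.det_toLin', det_one]
  have h1 := Measure.addHaar_preimage_linearMap (volume : Measure (Fin 3 → ℝ))
    (f := Matrix.toLin' h.1) (by rw [hdet]; exact one_ne_zero)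
    {x : Fin 3 → ℝ | x ⬝ᵥ x < 1 ∧ c * Real.sqrt (x ⬝ᵥ x) < x ⬝ᵥ v}
  rw [hdet] at h1
  simp only [inv_one, abs_one, ENNReal.ofReal_one, one_mul] at h1
  rw [← h1, ← vol_sector hc0 hc1]
  congr 1
  ext x
  simp only [mem_preimage, mem_setOf_eq, Matrix.toLin'_apply]
  rw [← hh, dot_rot, dot_rot]
  simp [dotProduct, Fin.sum_univ_three]

end Pool.Agent.H748Z.SO3
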