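import Mathlib
import Pool.Agent.H748Z.SO3Vol

set_option autoImplicit false

open Matrix Set MeasureTheory
open scoped Pointwise symmDiff

namespace Pool.Agent.H748Z.SO3

variable [MeasurableSpace SO3] [BorelSpace SO3]

lemma lev_rot (μ : Measure SO3) [μ.IsMulLeftInvariant] (h : SO3) (x u : Fin 3 → ℝ) (c : ℝ) :
    μ (lev (h.1 *ᵥ x) u c) = μ (lev x u c) := by
  rw [← measure_preimage_mul μ h (lev (h.1 *ᵥ x) u c)]
  congr 1
  ext g
  simp only [lev, mem_preimage, mem_setOf_eq]
  rw [coe_mul', ← Matrix.mulVec_mulVec, dot_rot]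

lemma lev_unit (μ : Measure SO3) [μ.IsMulLeftInvariant] {x y : Fin 3 → ℝ} (hx : x ⬝ᵥ x = 1)
    (hy : y ⬝ᵥ y = 1) (u : Fin 3 → ℝ) (c : ℝ) : μ (lev x u c) = μ (lev y u c) := by
  obtain ⟨h, rfl⟩ := exists_rot hy hx
  exact lev_rot μ h y u c

lemma meas_lev_pos (μ : Measure SO3) [μ.IsMulLeftInvariant] [IsProbabilityMeasure μ]
    {x u : Fin 3 → ℝ} (hx : x ⬝ᵥ x = 1) (hu : u ⬝ᵥ u = 1) {c : ℝ} (hc0 : 0 < c) (hc1 : c < 1) :
    μ.real (lev x u c) = (1 - c) / 2 := by
  set S : Set (SO3 × (Fin 3 → ℝ)) :=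
    {p | p.2 ⬝ᵥ p.2 < 1 ∧ c * Real.sqrt (p.2 ⬝ᵥ p.2) < p.2 ⬝ᵥ (p.1.1 *ᵥ u)} with hS
  have hent : ∀ i j, Measurable fun g : SO3 => g.1 i j := fun i j =>
    (Continuous.matrix_elem (continuous_subtype_val (p := fun M => M ∈
      Matrix.specialOrthogonalGroup (Fin 3) ℝ)) i j).measurable
  have m1 : Measurable fun p : SO3 × (Fin 3 → ℝ) => p.2 ⬝ᵥ p.2 := by
    simp only [dotProduct]
    fun_prop
  have m2 : Measurable fun p : SO3 × (Fin 3 → ℝ) => p.2 ⬝ᵥ (p.1.1 *ᵥ u) := by
    simp only [dotProduct, Matrix.mulVec]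
    refine Finset.measurable_sum _ fun i _ => Measurable.mul (by fun_prop) ?_
    refine Finset.measurable_sum _ fun j _ => Measurable.mul ?_ measurable_const
    exact (hent i j).comp measurable_fst
  have hSm : MeasurableSet S :=
    (measurableSet_lt m1 measurable_const).inter
      (measurableSet_lt (measurable_const.mul m1.sqrt) m2)
  have e1 : (μ.prod volume) S = ENNReal.ofReal (2 * Real.pi / 3 * (1 - c)) := by
    rw [Measure.prod_apply hSm]
    have : ∀ g : SO3, volume (Prod.mk g ⁻¹' S) = ENNReal.ofReal (2 * Real.pi / 3 * (1 - c)) := by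
      intro g
      exact vol_sector' hc0 hc1 (v := g.1 *ᵥ u) (by rw [dot_rot, hu])
    simp only [this]
    rw [lintegral_const, measure_univ, mul_one]
  have hB : MeasurableSet {y : Fin 3 → ℝ | y ⬝ᵥ y < 1} := by
    refine measurableSet_lt ?_ measurable_const
    simp only [dotProduct]
    fun_prop
  have e2 : (μ.prod volume) S = μ (lev x u c) * ENNReal.ofReal (4 * Real.pi / 3) := by
    rw [Measure.prod_apply_symm hSm, ← vol_ball, ← lintegral_indicator_const hB]
    refine lintegral_congr_ae ?_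
    have h0 : ∀ᵐ y ∂(volume : Measure (Fin 3 → ℝ)), y ≠ 0 := by
      rw [ae_iff]; simp
    filter_upwards [h0] with y hy
    by_cases hyB : y ⬝ᵥ y < 1
    · rw [indicator_of_mem (show y ∈ {y : Fin 3 → ℝ | y ⬝ᵥ y < 1} from hyB)]
      have hp := dot_self_pos hy
      rw [lev_unit μ hx (unit_normalize hp)]
      congr 1
      ext g
      have hs0 : 0 < Real.sqrt (y ⬝ᵥ y) := Real.sqrt_pos.2 hp
      simp only [hS, lev, mem_preimage, mem_setOf_eq, hyB, true_and, smul_dotProduct, smul_eq_mul]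
      rw [inv_mul_eq_div, lt_div_iff₀ hs0]
    · rw [indicator_of_notMem (show y ∉ {y : Fin 3 → ℝ | y ⬝ᵥ y < 1} from hyB)]
      have : (fun g : SO3 => (g, y)) ⁻¹' S = ∅ := by
        ext g
        simp only [hS, mem_preimage, mem_setOf_eq, hyB, false_and, mem_empty_iff_false]
      rw [this, measure_empty]
  have e3 := congrArg ENNReal.toReal (e1.symm.trans e2)
  have hpi := Real.pi_pos
  rw [ENNReal.toReal_mul, ENNReal.toReal_ofReal (by nlinarith),
    ENNReal.toReal_ofReal (by positivity)] at e3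
  rw [Measure.real]
  have : Real.pi * ((1 - c) / 2) = Real.pi * (μ (lev x u c)).toReal := by linarith
  exact (mul_left_cancel₀ hpi.ne' this).symm

lemma meas_lev_neg (μ : Measure SO3) [μ.IsMulLeftInvariant] [IsProbabilityMeasure μ]
    {x u : Fin 3 → ℝ} (hx : x ⬝ᵥ x = 1) (hu : u ⬝ᵥ u = 1) {d : ℝ} (hd0 : 0 < d) (hd1 : d < 1) :
    μ.real (lev x u (-d)) = (1 + d) / 2 := by
  have hnx : (-x) ⬝ᵥ (-x) = 1 := by simpa using hx
  have hm : MeasurableSet (lev x u (-d)) := (isOpen_lev _ _ _).measurableSet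
  have hc := measureReal_compl (μ := μ) hm
  have h1 : μ.real (univ : Set SO3) = 1 := by simp
  have hlow : μ.real (lev (-x) u d) ≤ μ.real (lev x u (-d))ᶜ := by
    refine measureReal_mono ?_
    intro g hg
    simp only [lev, mem_compl_iff, mem_setOf_eq, neg_dotProduct, not_lt] at hg ⊢
    linarith
  rw [meas_lev_pos μ hnx hu hd0 hd1] at hlow
  have hup : μ.real (lev x u (-d))ᶜ ≤ (1 - d) / 2 := by
    refine le_of_forall_pos_le_add fun ε hε => ?_
    have hd' : 0 < max (d / 2) (d - ε) := lt_max_of_lt_left (by linarith)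
    have hd'' : max (d / 2) (d - ε) < d := max_lt (by linarith) (by linarith)
    have h2 : μ.real (lev x u (-d))ᶜ ≤ μ.real (lev (-x) u (max (d / 2) (d - ε))) := by
      refine measureReal_mono ?_
      intro g hg
      simp only [lev, mem_compl_iff, mem_setOf_eq, neg_dotProduct, not_lt] at hg ⊢
      linarith
    rw [meas_lev_pos μ hnx hu hd' (hd''.trans hd1)] at h2
    have := le_max_right (d / 2) (d - ε)
    linarith
  linarith

lemma meas_lev (μ : Measure SO3) [μ.IsMulLeftInvariant] [IsProbabilityMeasure μ]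
    {x u : Fin 3 → ℝ} (hx : x ⬝ᵥ x = 1) (hu : u ⬝ᵥ u = 1) {c : ℝ} (hc0 : -1 < c) (hc1 : c < 1) :
    μ.real (lev x u c) = (1 - c) / 2 := by
  rcases lt_trichotomy c 0 with h | h | h
  · have := meas_lev_neg μ hx hu (d := -c) (by linarith) (by linarith)
    rw [neg_neg] at this
    rw [this]; ring
  · subst h
    apply le_antisymm
    · refine le_of_forall_pos_le_add fun ε hε => ?_
      have h1 : 0 < min ε (1 / 2) := lt_min hε (by norm_num)
      have h2 : min ε (1 / 2) < 1 := (min_le_right _ _).trans_lt (by norm_num)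
      have h3 : μ.real (lev x u 0) ≤ μ.real (lev x u (-min ε (1 / 2))) := by
        refine measureReal_mono ?_
        intro g hg
        simp only [lev, mem_setOf_eq] at hg ⊢
        linarith
      rw [meas_lev_neg μ hx hu h1 h2] at h3
      have := min_le_left ε (1 / 2)
      linarith
    · refine le_of_forall_pos_le_add fun ε hε => ?_
      have h1 : 0 < min ε (1 / 2) := lt_min hε (by norm_num)
      have h2 : min ε (1 / 2) < 1 := (min_le_right _ _).trans_lt (by norm_num)
      have h3 : μ.real (lev x u (min ε (1 / 2))) ≤ μ.real (lev x u 0) := by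
        refine measureReal_mono ?_
        intro g hg
        simp only [lev, mem_setOf_eq] at hg ⊢
        linarith
      rw [meas_lev_pos μ hx hu h1 h2] at h3
      have := min_le_left ε (1 / 2)
      linarith
  · exact meas_lev_pos μ hx hu h hc1

theorem main (μ : Measure SO3) [μ.IsHaarMeasure] [IsProbabilityMeasure μ] (a : ℝ) (ha0 : 0 < a)
    (ha : a < 1 / 2) :
    ∃ A : Set SO3, IsOpen A ∧ A.Nonempty ∧ μ.real A = a ∧ μ.real (A * A) = 4 * a * (1 - a) ∧
      ∀ (u : Fin 3 → ℝ) (θ : ℝ), u ⬝ᵥ u = 1 → 0 < θ → μ (A ∆ cap u θ) ≠ 0 := by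
  have he : (![1, 0, 0] : Fin 3 → ℝ) ⬝ᵥ ![1, 0, 0] = 1 := by simp [dotProduct, Fin.sum_univ_three]
  set e : Fin 3 → ℝ := ![1, 0, 0] with hedef
  have hne : (-e) ⬝ᵥ (-e) = 1 := by simpa using he
  refine ⟨lev (-e) e (1 - 2 * a), isOpen_lev _ _ _, ?_, ?_, ?_, ?_⟩
  · obtain ⟨h, hh⟩ := exists_rot he hne
    refine ⟨h, ?_⟩
    simp only [lev, mem_setOf_eq]
    rw [hh, hne]; linarith
  · rw [meas_lev μ hne he (by linarith) (by linarith)]; ring
  · rw [lev_mul_lev he (by linarith), meas_lev μ he he (by nlinarith) (by nlinarith)]; ring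
  · intro u θ hu hθ h0
    have hO : IsOpen (cap u θ ∩ lev e e 0) := (isOpen_cap u θ).inter (isOpen_lev _ _ _)
    have hN : (cap u θ ∩ lev e e 0).Nonempty := by
      refine ⟨1, ?_, ?_⟩
      · simp only [cap, mem_setOf_eq, coe_one', Matrix.one_mulVec, hu, Real.arccos_one]
        exact hθ
      · simp only [lev, mem_setOf_eq, coe_one', Matrix.one_mulVec, he]
        exact one_pos
    have hpos := hO.measure_pos μ hN
    refine hpos.ne' (measure_mono_null ?_ h0)
    rintro g ⟨hg1, hg2⟩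
    rw [Set.mem_symmDiff]
    right
    refine ⟨hg1, ?_⟩
    simp only [lev, mem_setOf_eq, neg_dotProduct, not_lt] at hg2 ⊢
    linarith

end Pool.Agent.H748Z.SO3
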